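import Mathlib

set_option autoImplicit false

namespace Pool.Agent.H793Z.Erg

open Finset

variable {ι : Type} [Fintype ι] [DecidableEq ι]

noncomputable def wt (p : ℝ) (b : Bool) : ℝ := if b then p else 1 - p
noncomputable def W (p : ℝ) (y : ι → Bool) : ℝ := ∏ e, wt p (y e)
noncomputable def Ex (p : ℝ) (F : (ι → Bool) → ℝ) : ℝ := ∑ y, W p y * F y
noncomputable def ind (b : Bool) : ℝ := if b then 1 else 0
noncomputable def xi (p : ℝ) (b : Bool) : ℝ := ind b - p

theorem ind_nonneg (b : Bool) : 0 ≤ ind b := by cases b <;> simp [ind]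
theorem ind_le_one (b : Bool) : ind b ≤ 1 := by cases b <;> simp [ind]

variable {p : ℝ}

theorem abs_xi_le (h0 : 0 ≤ p) (h1 : p ≤ 1) (b : Bool) : |xi p b| ≤ 1 := by
  rw [abs_le]; cases b <;> simp [xi, ind] <;> constructor <;> linarith

theorem xi_sq_le (h0 : 0 ≤ p) (b : Bool) : xi p b ^ 2 ≤ ind b + p ^ 2 := by
  cases b <;> simp [xi, ind]
  nlinarith

omit [DecidableEq ι] in
theorem W_nonneg (h0 : 0 ≤ p) (h1 : p ≤ 1) (y : ι → Bool) : 0 ≤ W p y := by
  apply Finset.prod_nonneg
  intro e _
  unfold wt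
  split_ifs <;> linarith

theorem Ex_prod_univ (g : ι → Bool → ℝ) :
    Ex p (fun y => ∏ e, g e (y e)) = ∏ e, (p * g e true + (1 - p) * g e false) := by
  unfold Ex W
  simp only [← Finset.prod_mul_distrib]
  have := Finset.prod_univ_sum (fun _ : ι => (univ : Finset Bool)) (fun e b => wt p b * g e b)
  rw [Fintype.piFinset_univ] at this
  rw [← this]
  refine Finset.prod_congr rfl fun e _ => ?_
  simp [wt]

theorem Ex_prod (S : Finset ι) (g : ι → Bool → ℝ) :
    Ex p (fun y => ∏ e ∈ S, g e (y e)) = ∏ e ∈ S, (p * g e true + (1 - p) * g e false) := by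
  have h := Ex_prod_univ (p := p) (fun e b => if e ∈ S then g e b else 1)
  have e1 : ∀ y : ι → Bool, ∏ e, (if e ∈ S then g e (y e) else 1) = ∏ e ∈ S, g e (y e) := by
    intro y; rw [Finset.prod_ite_mem, Finset.univ_inter]
  simp only [e1] at h
  rw [h, ← Finset.univ_inter S, ← Finset.prod_ite_mem, Finset.univ_inter]
  refine Finset.prod_congr rfl fun e _ => ?_
  split_ifs <;> ring

theorem Ex_one : Ex p (fun _ : ι → Bool => (1 : ℝ)) = 1 := by
  simpa using Ex_prod (p := p) (∅ : Finset ι) (fun _ _ => 1)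

theorem Ex_mul_const (c : ℝ) (F : (ι → Bool) → ℝ) : Ex p (fun y => c * F y) = c * Ex p F := by
  unfold Ex
  rw [Finset.mul_sum]
  exact Finset.sum_congr rfl fun y _ => by ring

theorem Ex_const (c : ℝ) : Ex p (fun _ : ι → Bool => c) = c := by
  have := Ex_mul_const (p := p) c (fun _ : ι → Bool => (1 : ℝ))
  simpa [Ex_one] using this

theorem Ex_add (F G : (ι → Bool) → ℝ) : Ex p (fun y => F y + G y) = Ex p F + Ex p G := by
  unfold Ex
  rw [← Finset.sum_add_distrib]
  exact Finset.sum_congr rfl fun y _ => by ring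

theorem Ex_sum {κ : Type} (s : Finset κ) (F : κ → (ι → Bool) → ℝ) :
    Ex p (fun y => ∑ k ∈ s, F k y) = ∑ k ∈ s, Ex p (F k) := by
  unfold Ex
  simp only [Finset.mul_sum]
  exact Finset.sum_comm

theorem Ex_mono (h0 : 0 ≤ p) (h1 : p ≤ 1) {F G : (ι → Bool) → ℝ} (h : ∀ y, F y ≤ G y) :
    Ex p F ≤ Ex p G :=
  Finset.sum_le_sum fun y _ => mul_le_mul_of_nonneg_left (h y) (W_nonneg h0 h1 y)

theorem Ex_nonneg (h0 : 0 ≤ p) (h1 : p ≤ 1) {F : (ι → Bool) → ℝ} (h : ∀ y, 0 ≤ F y) :
    0 ≤ Ex p F :=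
  Finset.sum_nonneg fun y _ => mul_nonneg (W_nonneg h0 h1 y) (h y)

theorem Ex_coord (e : ι) (g : Bool → ℝ) :
    Ex p (fun y : ι → Bool => g (y e)) = p * g true + (1 - p) * g false := by
  simpa using Ex_prod (p := p) {e} (fun _ b => g b)

theorem Ex_resample (S : Finset ι) (F : (ι → Bool) → ℝ) :
    Ex p F = Ex p (fun y => Ex p (fun z => F (S.piecewise z y))) := by
  let σ : (ι → Bool) × (ι → Bool) → (ι → Bool) × (ι → Bool) :=
    fun a => (S.piecewise a.2 a.1, S.piecewise a.1 a.2)
  have hσ : Function.Involutive σ := by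
    rintro ⟨y, z⟩
    ext e <;> by_cases h : e ∈ S <;> simp [σ, Finset.piecewise, h]
  have hW : ∀ a : (ι → Bool) × (ι → Bool), W p (σ a).1 * W p (σ a).2 = W p a.1 * W p a.2 := by
    rintro ⟨y, z⟩
    simp only [W, σ, ← Finset.prod_mul_distrib]
    refine Finset.prod_congr rfl fun e _ => ?_
    by_cases h : e ∈ S <;> simp [Finset.piecewise, h, mul_comm]
  have h1 : Ex p (fun y => Ex p (fun z => F (S.piecewise z y))) =
      ∑ a : (ι → Bool) × (ι → Bool), W p (σ a).1 * W p (σ a).2 * F (σ a).1 := by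
    simp only [hW]
    unfold Ex
    rw [Fintype.sum_prod_type]
    refine Finset.sum_congr rfl fun y _ => ?_
    rw [Finset.mul_sum]
    exact Finset.sum_congr rfl fun z _ => by simp only [σ]; ring
  have h2 := Equiv.sum_comp hσ.toPerm
    (fun a : (ι → Bool) × (ι → Bool) => W p a.1 * W p a.2 * F a.1)
  rw [h1]
  have h3 : ∑ a : (ι → Bool) × (ι → Bool), W p (σ a).1 * W p (σ a).2 * F (σ a).1 =
      ∑ a : (ι → Bool) × (ι → Bool), W p a.1 * W p a.2 * F a.1 := h2
  rw [h3, Fintype.sum_prod_type]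
  have h4 : ∑ z : ι → Bool, W p z = 1 := by simpa [Ex] using (Ex_one (p := p) (ι := ι))
  unfold Ex
  refine Finset.sum_congr rfl fun y _ => ?_
  have : ∑ z : ι → Bool, W p y * W p z * F y = W p y * F y * ∑ z : ι → Bool, W p z := by
    rw [Finset.mul_sum]
    exact Finset.sum_congr rfl fun z _ => by ring
  rw [this, h4, mul_one]

theorem Ex_indep {κ : Type} [DecidableEq κ] (S : κ → Finset ι) (F : κ → (ι → Bool) → ℝ)
    (hdep : ∀ k, ∀ y z : ι → Bool, (∀ e ∈ S k, y e = z e) → F k y = F k z)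
    (hdis : ∀ k l, k ≠ l → Disjoint (S k) (S l)) (s : Finset κ) :
    Ex p (fun y => ∏ k ∈ s, F k y) = ∏ k ∈ s, Ex p (F k) := by
  induction s using Finset.induction_on with
  | empty => simp [Ex_one]
  | insert a s ha ih =>
    rw [Finset.prod_insert ha, Ex_resample (S a), ← ih]
    have : ∀ y z : ι → Bool, ∏ k ∈ insert a s, F k ((S a).piecewise z y) =
        (∏ k ∈ s, F k y) * F a z := by
      intro y z
      rw [Finset.prod_insert ha, mul_comm]
      congr 1
      · refine Finset.prod_congr rfl fun k hk => hdep k _ _ fun e he => ?_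
        have hne : k ≠ a := fun h => ha (h ▸ hk)
        exact Finset.piecewise_eq_of_notMem _ _ _ (Finset.disjoint_left.1 (hdis k a hne) he)
      · exact hdep a _ _ fun e he => Finset.piecewise_eq_of_mem _ _ _ he
    simp only [this, Ex_mul_const]
    rw [← Ex_mul_const]
    congr 1
    ext y
    ring

/-- exponential moment of a sum over distinct coordinates -/
theorem Ex_exp_sum {κ : Type} [DecidableEq κ] (J : Finset κ) (c : κ → ι) (hc : Set.InjOn c J)
    (g : Bool → ℝ) :
    Ex p (fun y => Real.exp (∑ j ∈ J, g (y (c j)))) =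
      (p * Real.exp (g true) + (1 - p) * Real.exp (g false)) ^ J.card := by
  have h := Ex_prod (p := p) (J.image c) (fun _ b => Real.exp (g b))
  rw [Finset.prod_const, Finset.card_image_of_injOn hc] at h
  rw [← h]
  congr 1
  ext y
  rw [Finset.prod_image hc, Real.exp_sum]

theorem mgf_subg (h0 : 0 ≤ p) (h1 : p ≤ 1) (t : ℝ) :
    p * Real.exp (xi p true * t) + (1 - p) * Real.exp (xi p false * t) ≤ Real.exp (t ^ 2 / 2) := by
  have key : ∀ x : ℝ, |x| ≤ 1 → Real.exp (x * t) ≤ Real.cosh t + x * Real.sinh t := by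
    intro x hx
    obtain ⟨hx1, hx2⟩ := abs_le.1 hx
    have h := convexOn_exp.2 (Set.mem_univ t) (Set.mem_univ (-t))
      (show 0 ≤ (1 + x) / 2 by linarith) (show 0 ≤ (1 - x) / 2 by linarith) (by ring)
    simp only [smul_eq_mul] at h
    have e : (1 + x) / 2 * t + (1 - x) / 2 * -t = x * t := by ring
    rw [e] at h
    rw [Real.cosh_eq, Real.sinh_eq]
    linarith
  have a1 := mul_le_mul_of_nonneg_left (key _ (abs_xi_le h0 h1 true)) h0
  have a2 := mul_le_mul_of_nonneg_left (key _ (abs_xi_le h0 h1 false)) (sub_nonneg.2 h1)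
  have a3 := Real.cosh_le_exp_half_sq t
  have e : p * (Real.cosh t + xi p true * Real.sinh t) +
      (1 - p) * (Real.cosh t + xi p false * Real.sinh t) = Real.cosh t := by
    simp only [xi, ind]; norm_num; ring
  linarith

theorem mgf_small (h0 : 0 ≤ p) (t : ℝ) :
    p * Real.exp (t * xi p true) + (1 - p) * Real.exp (t * xi p false) ≤
      Real.exp (p * (t ^ 2 * Real.exp |t|)) := by
  have e : p * Real.exp (t * xi p true) + (1 - p) * Real.exp (t * xi p false) =
      Real.exp (-(t * p)) * (p * (Real.exp t - 1) + 1) := by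
    have e1 : t * xi p true = -(t * p) + t := by simp [xi, ind]; ring
    have e2 : t * xi p false = -(t * p) := by simp [xi, ind]
    rw [e1, e2, Real.exp_add]; ring
  have h1 : Real.exp t - 1 - t ≤ t ^ 2 * Real.exp |t| := by
    have a1 : Real.exp t - 1 ≤ t * Real.exp t := by
      have := Real.add_one_le_exp (-t)
      have h2 : Real.exp (-t) * Real.exp t = 1 := by rw [← Real.exp_add]; simp
      nlinarith [Real.exp_pos t]
    rcases le_total 0 t with h | h
    · rw [abs_of_nonneg h]; nlinarith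
    · have a2 := Real.add_one_le_exp t
      have a3 : 1 ≤ Real.exp |t| := Real.one_le_exp (abs_nonneg t)
      nlinarith [sq_nonneg t]
  rw [e]
  calc Real.exp (-(t * p)) * (p * (Real.exp t - 1) + 1)
      ≤ Real.exp (-(t * p)) * Real.exp (p * (Real.exp t - 1)) :=
        mul_le_mul_of_nonneg_left (Real.add_one_le_exp _) (Real.exp_pos _).le
    _ = Real.exp (p * (Real.exp t - 1 - t)) := by rw [← Real.exp_add]; congr 1; ring
    _ ≤ _ := Real.exp_le_exp.2 (mul_le_mul_of_nonneg_left h1 h0)

/-- exponential moment of a quadratic form with small Frobenius norm -/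
theorem riccati (h0 : 0 ≤ p) (h1 : p ≤ 1) {κ : Type} [DecidableEq κ] (c : κ → ι) (S : Finset κ) :
    Set.InjOn c S → ∀ B : κ → κ → ℝ, (∀ a b, B a b = B b a) → (∀ a, 0 ≤ B a a) →
      ∑ a ∈ S, ∑ b ∈ S, B a b ^ 2 ≤ 1 / 4 →
      Ex p (fun y => Real.exp ((∑ a ∈ S, ∑ b ∈ S, B a b * xi p (y (c a)) * xi p (y (c b))) / 2)) ≤
        Real.exp ((∑ a ∈ S, B a a) / 2 + ∑ a ∈ S, ∑ b ∈ S, B a b ^ 2) := by
  induction S using Finset.induction_on with
  | empty => intro _ B _ _ _; simp [Ex_one]
  | insert a S ha ih =>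
    intro hc B hsym hdiag hF
    have hc' : Set.InjOn c S := hc.mono (by intro x hx; simp [hx])
    have hne : ∀ b ∈ S, c b ≠ c a := by
      intro b hb h
      have := hc (by simp [hb]) (by simp) h
      exact ha (this ▸ hb)
    set β := ∑ b ∈ S, B a b ^ 2 with hβ
    set F := ∑ b ∈ S, ∑ d ∈ S, B b d ^ 2 with hFdef
    have hβ0 : 0 ≤ β := Finset.sum_nonneg fun b _ => sq_nonneg _
    have hF0 : 0 ≤ F := Finset.sum_nonneg fun b _ => Finset.sum_nonneg fun d _ => sq_nonneg _
    have hsplit : ∑ b ∈ insert a S, ∑ d ∈ insert a S, B b d ^ 2 = B a a ^ 2 + 2 * β + F := by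
      simp only [Finset.sum_insert ha, Finset.sum_add_distrib]
      have : ∑ b ∈ S, B b a ^ 2 = β := Finset.sum_congr rfl fun b _ => by rw [hsym]
      rw [this]; ring
    rw [hsplit] at hF
    let B' : κ → κ → ℝ := fun b d => B b d + B a b * B a d
    have hcross : ∑ b ∈ S, ∑ d ∈ S, B b d * (B a b * B a d) ≤ β / 2 := by
      have h2 := Finset.sum_mul_sq_le_sq_mul_sq (S ×ˢ S) (fun x => B x.1 x.2)
        (fun x => B a x.1 * B a x.2)
      simp only [Finset.sum_product] at h2
      have h3 : ∑ b ∈ S, ∑ d ∈ S, (B a b * B a d) ^ 2 = β ^ 2 := by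
        rw [sq β, hβ, Finset.sum_mul_sum]
        exact Finset.sum_congr rfl fun b _ => Finset.sum_congr rfl fun d _ => by ring
      rw [h3, ← hFdef] at h2
      have h4 : F * β ^ 2 ≤ (β / 2) ^ 2 := by nlinarith [sq_nonneg β, sq_nonneg (B a a)]
      exact le_of_sq_le_sq (h2.trans h4) (by linarith) |> fun h => by
        exact abs_le_of_sq_le_sq' (h2.trans h4) (by linarith) |>.2
    have hF' : ∑ b ∈ S, ∑ d ∈ S, B' b d ^ 2 ≤ F + 9 / 8 * β := by
      have h3 : ∑ b ∈ S, ∑ d ∈ S, B' b d ^ 2 =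
          F + 2 * ∑ b ∈ S, ∑ d ∈ S, B b d * (B a b * B a d) + β ^ 2 := by
        rw [sq β, hβ, Finset.sum_mul_sum, hFdef, Finset.mul_sum, ← Finset.sum_add_distrib,
          ← Finset.sum_add_distrib]
        refine Finset.sum_congr rfl fun b _ => ?_
        rw [Finset.mul_sum, ← Finset.sum_add_distrib, ← Finset.sum_add_distrib]
        exact Finset.sum_congr rfl fun d _ => by simp only [B']; ring
      rw [h3]
      nlinarith [sq_nonneg (B a a)]
    have hih := ih hc' B' (fun b d => by simp only [B']; rw [hsym b d]; ring)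
      (fun b => by simp only [B']; nlinarith [hdiag b, sq_nonneg (B a b)])
      (by nlinarith [sq_nonneg (B a a)])
    have htr : ∑ b ∈ S, B' b b = ∑ b ∈ S, B b b + β := by
      rw [hβ, ← Finset.sum_add_distrib]
      exact Finset.sum_congr rfl fun b _ => by simp only [B']; ring
    rw [Ex_resample {c a}]
    refine (Ex_mono h0 h1 (G := fun y => Real.exp (B a a / 2) * Real.exp
      ((∑ b ∈ S, ∑ d ∈ S, B' b d * xi p (y (c b)) * xi p (y (c d))) / 2)) fun y => ?_).trans ?_
    · set L := ∑ b ∈ S, B a b * xi p (y (c b)) with hL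
      set Q := ∑ b ∈ S, ∑ d ∈ S, B b d * xi p (y (c b)) * xi p (y (c d)) with hQ
      have e1 : ∀ z : ι → Bool, ∑ b ∈ insert a S, ∑ d ∈ insert a S, B b d *
          xi p ((({c a} : Finset ι).piecewise z y) (c b)) *
          xi p ((({c a} : Finset ι).piecewise z y) (c d)) =
          B a a * xi p (z (c a)) ^ 2 + 2 * (xi p (z (c a)) * L) + Q := by
        intro z
        have ea : (({c a} : Finset ι).piecewise z y) (c a) = z (c a) :=
          Finset.piecewise_eq_of_mem _ _ _ (by simp)
        have eb : ∀ b ∈ S, (({c a} : Finset ι).piecewise z y) (c b) = y (c b) := fun b hb =>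
          Finset.piecewise_eq_of_notMem _ _ _ (by simpa using hne b hb)
        simp only [Finset.sum_insert ha, Finset.sum_add_distrib, ea]
        have s1 : ∑ d ∈ S, B a d * xi p (z (c a)) *
            xi p ((({c a} : Finset ι).piecewise z y) (c d)) = xi p (z (c a)) * L := by
          rw [hL, Finset.mul_sum]
          exact Finset.sum_congr rfl fun d hd => by rw [eb d hd]; ring
        have s2 : ∑ b ∈ S, B b a * xi p ((({c a} : Finset ι).piecewise z y) (c b)) *
            xi p (z (c a)) = xi p (z (c a)) * L := by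
          rw [hL, Finset.mul_sum]
          exact Finset.sum_congr rfl fun d hd => by rw [eb d hd, hsym]; ring
        have s3 : ∑ b ∈ S, ∑ d ∈ S, B b d * xi p ((({c a} : Finset ι).piecewise z y) (c b)) *
            xi p ((({c a} : Finset ι).piecewise z y) (c d)) = Q :=
          Finset.sum_congr rfl fun b hb => Finset.sum_congr rfl fun d hd => by
            rw [eb b hb, eb d hd]
        rw [s1, s2, s3]; ring
      have e2 : ∑ b ∈ S, ∑ d ∈ S, B' b d * xi p (y (c b)) * xi p (y (c d)) = Q + L ^ 2 := by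
        rw [sq L, hL, Finset.sum_mul_sum, hQ, ← Finset.sum_add_distrib]
        refine Finset.sum_congr rfl fun b _ => ?_
        rw [← Finset.sum_add_distrib]
        exact Finset.sum_congr rfl fun d _ => by simp only [B']; ring
      simp only [e1, e2]
      refine (Ex_mono h0 h1 (G := fun z => Real.exp (B a a / 2 + Q / 2) *
        Real.exp (xi p (z (c a)) * L)) fun z => ?_).trans ?_
      · rw [← Real.exp_add]
        apply Real.exp_le_exp.2
        have h5 : xi p (z (c a)) ^ 2 ≤ 1 := by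
          have := abs_xi_le h0 h1 (z (c a))
          rw [← sq_abs]; nlinarith [abs_nonneg (xi p (z (c a)))]
        nlinarith [hdiag a]
      · rw [Ex_mul_const, Ex_coord (c a) (fun b => Real.exp (xi p b * L))]
        calc _ ≤ Real.exp (B a a / 2 + Q / 2) * Real.exp (L ^ 2 / 2) :=
              mul_le_mul_of_nonneg_left (mgf_subg h0 h1 L) (Real.exp_pos _).le
          _ = _ := by rw [← Real.exp_add, ← Real.exp_add]; congr 1; ring
    · rw [Ex_mul_const]
      refine (mul_le_mul_of_nonneg_left hih (Real.exp_pos _).le).trans ?_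
      rw [← Real.exp_add, hsplit, Finset.sum_insert ha, htr]
      apply Real.exp_le_exp.2
      nlinarith [sq_nonneg (B a a)]

end Pool.Agent.H793Z.Erg
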