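import Mathlib
import Pool.Agent.H793Z.Erg.Prob

set_option autoImplicit false

namespace Pool.Agent.H793Z.Erg

open Finset

variable {V : Type} [Fintype V] [DecidableEq V] {p : ℝ}

noncomputable def Y (p : ℝ) (y : Sym2 V → Bool) (i j : V) : ℝ :=
  if i = j then 0 else xi p (y s(i, j))

omit [Fintype V] in
theorem Y_symm (y : Sym2 V → Bool) (i j : V) : Y p y i j = Y p y j i := by
  unfold Y
  rw [Sym2.eq_swap]
  by_cases h : i = j
  · simp [h]
  · have : ¬ j = i := fun e => h e.symm
    simp [h, this]

omit [Fintype V] in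
theorem Y_self (y : Sym2 V → Bool) (i : V) : Y p y i i = 0 := by simp [Y]

noncomputable def Tr (p : ℝ) (S : Finset V) (y : Sym2 V → Bool) : ℝ :=
  ∑ i ∈ S, ∑ j ∈ S, ∑ k ∈ S, Y p y i j * Y p y j k * Y p y k i

noncomputable def Fr (p : ℝ) (S : Finset V) (y : Sym2 V → Bool) : ℝ :=
  ∑ i ∈ S, ∑ j ∈ S, Y p y i j ^ 2

omit [Fintype V] in
theorem Tr_insert (S : Finset V) (v : V) (hv : v ∉ S) (y : Sym2 V → Bool) :
    Tr p (insert v S) y =
      Tr p S y + 3 * ∑ i ∈ S, ∑ j ∈ S, Y p y i j * Y p y v i * Y p y v j := by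
  unfold Tr
  simp only [Finset.sum_insert hv, Finset.sum_add_distrib, Y_self, mul_zero, zero_mul,
    Finset.sum_const_zero, zero_add]
  have s1 : ∑ j ∈ S, ∑ k ∈ S, Y p y v j * Y p y j k * Y p y k v =
      ∑ i ∈ S, ∑ j ∈ S, Y p y i j * Y p y v i * Y p y v j :=
    Finset.sum_congr rfl fun i _ => Finset.sum_congr rfl fun j _ => by
      rw [Y_symm y j v]; ring
  have s2 : ∑ i ∈ S, ∑ k ∈ S, Y p y i v * Y p y v k * Y p y k i =
      ∑ i ∈ S, ∑ j ∈ S, Y p y i j * Y p y v i * Y p y v j :=
    Finset.sum_congr rfl fun i _ => Finset.sum_congr rfl fun j _ => by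
      rw [Y_symm y i v, Y_symm y j i]; ring
  have s3 : ∑ i ∈ S, ∑ j ∈ S, Y p y i j * Y p y j v * Y p y v i =
      ∑ i ∈ S, ∑ j ∈ S, Y p y i j * Y p y v i * Y p y v j :=
    Finset.sum_congr rfl fun i _ => Finset.sum_congr rfl fun j _ => by
      rw [Y_symm y j v]; ring
  rw [s1, s2, s3]; ring

omit [Fintype V] in
theorem Fr_mono (S : Finset V) (v : V) (hv : v ∉ S) (y : Sym2 V → Bool) :
    Fr p S y ≤ Fr p (insert v S) y := by
  unfold Fr
  simp only [Finset.sum_insert hv, Finset.sum_add_distrib]
  have a1 : 0 ≤ ∑ j ∈ S, Y p y v j ^ 2 := Finset.sum_nonneg fun _ _ => sq_nonneg _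
  have a2 : 0 ≤ ∑ j ∈ S, Y p y j v ^ 2 := Finset.sum_nonneg fun _ _ => sq_nonneg _
  have a3 := sq_nonneg (Y p y v v)
  linarith

theorem cubic_bound (h0 : 0 ≤ p) (h1 : p ≤ 1) {a R : ℝ} (hR : 36 * a ^ 2 * R ≤ 1 / 4)
    (S : Finset V) :
    Ex p (fun y : Sym2 V → Bool => if Fr p S y ≤ R then Real.exp (-a * Tr p S y) else 0) ≤
      Real.exp (S.card / 4) := by
  induction S using Finset.induction_on with
  | empty =>
    refine (Ex_mono h0 h1 (G := fun _ => 1) fun y => ?_).trans (by simp [Ex_one])
    split_ifs <;> simp [Tr]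
  | insert v S hv ih =>
    set T : Finset (Sym2 V) := S.image fun j => s(v, j) with hT
    rw [Ex_resample T]
    refine (Ex_mono h0 h1 (G := fun y => Real.exp (1 / 4) *
      (if Fr p S y ≤ R then Real.exp (-a * Tr p S y) else 0)) fun y => ?_).trans ?_
    · have hin : ∀ z : Sym2 V → Bool, ∀ i ∈ S, ∀ j ∈ S,
          Y p (T.piecewise z y) i j = Y p y i j := by
        intro z i hi j hj
        unfold Y
        rw [Finset.piecewise_eq_of_notMem]
        rw [hT, Finset.mem_image]
        rintro ⟨k, _, hk⟩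
        rcases Sym2.eq_iff.1 hk with h | h
        · exact hv (h.1 ▸ hi)
        · exact hv (h.1 ▸ hj)
      have hout : ∀ z : Sym2 V → Bool, ∀ i ∈ S,
          Y p (T.piecewise z y) v i = xi p (z s(v, i)) := by
        intro z i hi
        have : v ≠ i := fun h => hv (h ▸ hi)
        unfold Y
        rw [if_neg this, Finset.piecewise_eq_of_mem]
        exact Finset.mem_image.2 ⟨i, hi, rfl⟩
      have hFr : ∀ z : Sym2 V → Bool, Fr p S (T.piecewise z y) = Fr p S y := fun z =>
        Finset.sum_congr rfl fun i hi => Finset.sum_congr rfl fun j hj => by rw [hin z i hi j hj]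
      have hTr : ∀ z : Sym2 V → Bool, Tr p S (T.piecewise z y) = Tr p S y := fun z =>
        Finset.sum_congr rfl fun i hi => Finset.sum_congr rfl fun j hj =>
          Finset.sum_congr rfl fun k hk => by
            rw [hin z i hi j hj, hin z j hj k hk, hin z k hk i hi]
      by_cases hy : Fr p S y ≤ R
      · rw [if_pos hy]
        have hF : ∑ i ∈ S, ∑ j ∈ S, (-6 * a * Y p y i j) ^ 2 ≤ 1 / 4 := by
          have : ∑ i ∈ S, ∑ j ∈ S, (-6 * a * Y p y i j) ^ 2 = 36 * a ^ 2 * Fr p S y := by
            unfold Fr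
            rw [Finset.mul_sum]
            refine Finset.sum_congr rfl fun i _ => ?_
            rw [Finset.mul_sum]
            exact Finset.sum_congr rfl fun j _ => by ring
          rw [this]
          nlinarith [sq_nonneg a]
        have hric := riccati h0 h1 (fun j : V => s(v, j)) S
          (fun i _ j _ h => Sym2.congr_right.1 h) (fun i j => -6 * a * Y p y i j)
          (fun i j => by rw [Y_symm]) (fun i => by simp [Y_self]) hF
        simp only [Y_self, mul_zero, Finset.sum_const_zero, zero_div, zero_add] at hric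
        refine (Ex_mono h0 h1 (G := fun z => Real.exp (-a * Tr p S y) * Real.exp
          ((∑ i ∈ S, ∑ j ∈ S, -6 * a * Y p y i j * xi p (z s(v, i)) * xi p (z s(v, j))) / 2))
          fun z => ?_).trans ?_
        · have e : Real.exp (-a * Tr p (insert v S) (T.piecewise z y)) =
              Real.exp (-a * Tr p S y) * Real.exp ((∑ i ∈ S, ∑ j ∈ S,
                -6 * a * Y p y i j * xi p (z s(v, i)) * xi p (z s(v, j))) / 2) := by
            rw [← Real.exp_add, Tr_insert S v hv, hTr]
            congr 1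
            have : ∑ i ∈ S, ∑ j ∈ S, -6 * a * Y p y i j * xi p (z s(v, i)) * xi p (z s(v, j)) =
                -6 * a * ∑ i ∈ S, ∑ j ∈ S, Y p (T.piecewise z y) i j *
                  Y p (T.piecewise z y) v i * Y p (T.piecewise z y) v j := by
              rw [Finset.mul_sum]
              refine Finset.sum_congr rfl fun i hi => ?_
              rw [Finset.mul_sum]
              refine Finset.sum_congr rfl fun j hj => ?_
              rw [hin z i hi j hj, hout z i hi, hout z j hj]; ring
            rw [this]; ring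
          split_ifs
          · exact e.le
          · positivity
        · rw [Ex_mul_const, mul_comm]
          exact mul_le_mul_of_nonneg_right (hric.trans (Real.exp_le_exp.2 hF)) (Real.exp_pos _).le
      · rw [if_neg hy, mul_zero]
        refine (Ex_mono h0 h1 (G := fun _ => 0) fun z => ?_).trans (by rw [Ex_const])
        rw [if_neg]
        intro h
        exact hy ((hFr z) ▸ (Fr_mono S v hv _).trans h)
    · rw [Ex_mul_const, Finset.card_insert_of_notMem hv]
      refine (mul_le_mul_of_nonneg_left ih (Real.exp_pos _).le).trans ?_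
      rw [← Real.exp_add]
      apply le_of_eq
      congr 1
      push_cast
      ring

end Pool.Agent.H793Z.Erg
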