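import Mathlib
import Pool.Agent.H793Z.Erg.Cubic

set_option autoImplicit false

namespace Pool.Agent.H793Z.Erg

open Finset

section one

variable {ι : Type} [Fintype ι] [DecidableEq ι] {p : ℝ}

theorem p_small (hp : p ≤ Real.exp (-6500)) {x c : ℝ} (hx : x ≤ 6300) (hc : c ≤ 10000) :
    c * (p * Real.exp x) ≤ 1 ∨ c < 0 := by
  rcases lt_or_ge c 0 with h | h
  · exact Or.inr h
  left
  have h1 : p * Real.exp x ≤ Real.exp (-200) := by
    calc p * Real.exp x ≤ Real.exp (-6500) * Real.exp x :=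
          mul_le_mul_of_nonneg_right hp (Real.exp_pos _).le
      _ = Real.exp (-6500 + x) := by rw [Real.exp_add]
      _ ≤ _ := Real.exp_le_exp.2 (by linarith)
  have h2 : Real.exp (-200) * 10000 ≤ 1 := by
    have a1 : (101 : ℝ) ≤ Real.exp 100 := by have := Real.add_one_le_exp 100; linarith
    have a2 : Real.exp (-200) * (Real.exp 100 * Real.exp 100) = 1 := by
      rw [← Real.exp_add, ← Real.exp_add]; norm_num
    have a3 : (10000 : ℝ) ≤ Real.exp 100 * Real.exp 100 := by nlinarith
    nlinarith [Real.exp_pos (-200)]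
  nlinarith [Real.exp_pos (-200)]

theorem p_small2 (hp : p ≤ Real.exp (-6500)) {x : ℝ} (hx : x ≤ 100) :
    (10 : ℝ) ^ 12 * (p * Real.exp x) ≤ 1 := by
  have h1 : p * Real.exp x ≤ Real.exp (-6400) := by
    calc p * Real.exp x ≤ Real.exp (-6500) * Real.exp x :=
          mul_le_mul_of_nonneg_right hp (Real.exp_pos _).le
      _ = Real.exp (-6500 + x) := by rw [Real.exp_add]
      _ ≤ _ := Real.exp_le_exp.2 (by linarith)
  have a1 : (1000 : ℝ) ≤ Real.exp 1600 := by have := Real.add_one_le_exp 1600; linarith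
  have a2 : Real.exp (-6400) * Real.exp 1600 ^ 4 = 1 := by
    rw [← Real.exp_nat_mul, ← Real.exp_add]; norm_num
  have a3 : (1000 : ℝ) ^ 4 ≤ Real.exp 1600 ^ 4 := pow_le_pow_left₀ (by norm_num) a1 4
  nlinarith [Real.exp_pos (-6400)]

theorem good_vertex (h0 : 0 ≤ p) (hp : p ≤ Real.exp (-6500)) {κ : Type} [DecidableEq κ]
    (J : Finset κ) (c : κ → ι) (hc : Set.InjOn c J) {n : ℝ} (hn : 0 < n) (hJ : (J.card : ℝ) ≤ n) :
    Ex p (fun y => if |∑ j ∈ J, xi p (y (c j))| ≤ n / 1000 then
      Real.exp (48000 / n * (∑ j ∈ J, xi p (y (c j))) ^ 2) else 0) ≤ 20 := by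
  have h1 : p ≤ 1 := hp.trans (Real.exp_le_one_iff.2 (by norm_num))
  set r := Real.sqrt (48000 / n) with hr
  have hr0 : 0 ≤ r := Real.sqrt_nonneg _
  have hrr : r ^ 2 = 48000 / n := Real.sq_sqrt (by positivity)
  set K := ⌊r * (n / 1000)⌋₊ with hK
  have hmgf : ∀ k ∈ range (K + 1), ∀ t : ℝ, |t| = 2 * k * r →
      Ex p (fun y => Real.exp (t * ∑ j ∈ J, xi p (y (c j)))) ≤ Real.exp ((k : ℝ) ^ 2 / 2) := by
    intro k hk t ht
    have hk1 : (k : ℝ) ≤ r * (n / 1000) := by
      have : k ≤ K := by have := Finset.mem_range.1 hk; omega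
      exact (Nat.cast_le.2 this).trans (Nat.floor_le (by positivity))
    have ht1 : |t| ≤ 100 := by
      rw [ht]
      have : (k : ℝ) * r ≤ r * (n / 1000) * r := mul_le_mul_of_nonneg_right hk1 hr0
      have e : r * (n / 1000) * r = 48 := by
        have : r * (n / 1000) * r = r ^ 2 * (n / 1000) := by ring
        rw [this, hrr]; field_simp; norm_num
      linarith
    simp only [Finset.mul_sum]
    rw [Ex_exp_sum J c hc (fun b => t * xi p b)]
    have hb := mgf_small h0 t
    have hnn : 0 ≤ p * Real.exp (t * xi p true) + (1 - p) * Real.exp (t * xi p false) := by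
      have := sub_nonneg.2 h1
      positivity
    refine (pow_le_pow_left₀ hnn hb _).trans ?_
    rw [← Real.exp_nat_mul]
    apply Real.exp_le_exp.2
    have ht2 : t ^ 2 = 4 * k ^ 2 * (48000 / n) := by rw [← sq_abs, ht, ← hrr]; ring
    have hs := p_small2 hp ht1
    have hpe : 0 ≤ p * Real.exp |t| := by positivity
    calc (J.card : ℝ) * (p * (t ^ 2 * Real.exp |t|)) ≤ n * (p * (t ^ 2 * Real.exp |t|)) :=
          mul_le_mul_of_nonneg_right hJ (by positivity)
      _ = (k : ℝ) ^ 2 * (192000 * (p * Real.exp |t|)) := by rw [ht2]; field_simp; ring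
      _ ≤ (k : ℝ) ^ 2 * (1 / 2) := mul_le_mul_of_nonneg_left (by nlinarith) (sq_nonneg _)
      _ = _ := by ring
  refine (Ex_mono h0 h1 (G := fun y => ∑ k ∈ range (K + 1), Real.exp (1 - (k : ℝ) ^ 2) *
    (Real.exp ((2 * k * r) * ∑ j ∈ J, xi p (y (c j))) +
      Real.exp (-(2 * k * r) * ∑ j ∈ J, xi p (y (c j))))) fun y => ?_).trans ?_
  · set x := ∑ j ∈ J, xi p (y (c j)) with hx
    split_ifs with h
    · set k := ⌊r * |x|⌋₊ with hk
      have hu0 : 0 ≤ r * |x| := by positivity
      have hk1 : (k : ℝ) ≤ r * |x| := Nat.floor_le hu0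
      have hk2 : r * |x| < k + 1 := Nat.lt_floor_add_one _
      have hkK : k ∈ range (K + 1) := by
        rw [Finset.mem_range, Nat.lt_succ_iff]
        exact Nat.floor_le_floor (mul_le_mul_of_nonneg_left h hr0)
      refine le_trans ?_ (Finset.single_le_sum (f := fun k : ℕ => Real.exp (1 - (k : ℝ) ^ 2) *
        (Real.exp ((2 * k * r) * x) + Real.exp (-(2 * k * r) * x))) (fun _ _ => by positivity) hkK)
      have e1 : 48000 / n * x ^ 2 ≤ (1 - (k : ℝ) ^ 2) + 2 * k * r * |x| := by
        rw [← hrr, ← sq_abs x]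
        nlinarith
      refine (Real.exp_le_exp.2 e1).trans ?_
      rw [Real.exp_add]
      apply mul_le_mul_of_nonneg_left _ (Real.exp_pos _).le
      rcases abs_cases x with h' | h'
      · rw [h'.1]; linarith [Real.exp_pos (-(2 * k * r) * x)]
      · rw [h'.1]
        have : 2 * k * r * -x = -(2 * k * r) * x := by ring
        rw [this]; linarith [Real.exp_pos ((2 * k * r) * x)]
    · exact Finset.sum_nonneg fun _ _ => by positivity
  · rw [Ex_sum]
    have hterm : ∀ k ∈ range (K + 1), Ex p (fun y => Real.exp (1 - (k : ℝ) ^ 2) *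
        (Real.exp ((2 * k * r) * ∑ j ∈ J, xi p (y (c j))) +
          Real.exp (-(2 * k * r) * ∑ j ∈ J, xi p (y (c j))))) ≤ 6 * (2 / 3) ^ k := by
      intro k hk
      rw [Ex_mul_const, Ex_add]
      have a1 := hmgf k hk (2 * k * r) (abs_of_nonneg (by positivity))
      have a2 := hmgf k hk (-(2 * k * r)) (by rw [abs_neg]; exact abs_of_nonneg (by positivity))
      have a3 : Real.exp (1 - (k : ℝ) ^ 2) * Real.exp ((k : ℝ) ^ 2 / 2) ≤ 3 * (2 / 3) ^ k := by
        rw [← Real.exp_add]
        have b1 : (k : ℝ) ≤ (k : ℝ) ^ 2 := by exact_mod_cast Nat.le_self_pow (by norm_num) k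
        have b2 : Real.exp (-(1 / 2)) ≤ 2 / 3 := by
          have := Real.add_one_le_exp (1 / 2)
          have e : Real.exp (-(1 / 2)) * Real.exp (1 / 2) = 1 := by rw [← Real.exp_add]; simp
          nlinarith [Real.exp_pos (-(1 / 2))]
        calc Real.exp (1 - (k : ℝ) ^ 2 + (k : ℝ) ^ 2 / 2) ≤ Real.exp (1 + k * -(1 / 2)) :=
              Real.exp_le_exp.2 (by linarith)
          _ = Real.exp 1 * Real.exp (-(1 / 2)) ^ k := by rw [Real.exp_add, Real.exp_nat_mul]
          _ ≤ 3 * (2 / 3) ^ k := by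
              apply mul_le_mul (by have := Real.exp_one_lt_d9; linarith)
                (pow_le_pow_left₀ (Real.exp_pos _).le b2 k) (by positivity) (by norm_num)
      nlinarith [Real.exp_pos (1 - (k : ℝ) ^ 2)]
    refine (Finset.sum_le_sum hterm).trans ?_
    rw [← Finset.mul_sum, geom_sum_eq (by norm_num)]
    have : (0 : ℝ) ≤ (2 / 3) ^ (K + 1) := by positivity
    have e : (((2 : ℝ) / 3) ^ (K + 1) - 1) / (2 / 3 - 1) = 3 - 3 * (2 / 3) ^ (K + 1) := by
      field_simp; ring
    rw [e]; linarith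

theorem bad_vertex (h0 : 0 ≤ p) (hp : p ≤ Real.exp (-6500)) {κ : Type} [DecidableEq κ]
    (J : Finset κ) (c : κ → ι) (hc : Set.InjOn c J) {n : ℝ} (hJ : (J.card : ℝ) ≤ n) :
    Ex p (fun y => Real.exp (6300 * (∑ j ∈ J, ind (y (c j))) - n / 10)) ≤ 1 := by
  have h1 : p ≤ 1 := hp.trans (Real.exp_le_one_iff.2 (by norm_num))
  have e : ∀ y : ι → Bool, Real.exp (6300 * (∑ j ∈ J, ind (y (c j))) - n / 10) =
      Real.exp (-(n / 10)) * Real.exp (∑ j ∈ J, 6300 * ind (y (c j))) := by
    intro y; rw [← Real.exp_add, Finset.mul_sum]; congr 1; ring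
  simp only [e]
  rw [Ex_mul_const, Ex_exp_sum J c hc (fun b => 6300 * ind b)]
  have hs := (p_small hp (x := 6300) (c := 10) le_rfl (by norm_num)).resolve_right (by norm_num)
  have hb : p * Real.exp (6300 * ind true) + (1 - p) * Real.exp (6300 * ind false) ≤
      Real.exp (1 / 10) := by
    have := Real.add_one_le_exp (1 / 10 : ℝ)
    simp only [ind]
    norm_num
    norm_num at this
    linarith
  have hnn : 0 ≤ p * Real.exp (6300 * ind true) + (1 - p) * Real.exp (6300 * ind false) := by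
    have := sub_nonneg.2 h1
    positivity
  refine (mul_le_mul_of_nonneg_left (pow_le_pow_left₀ hnn hb _) (Real.exp_pos _).le).trans ?_
  rw [← Real.exp_nat_mul, ← Real.exp_add, Real.exp_le_one_iff]
  linarith

end one

variable {V : Type} [Fintype V] [LinearOrder V] {p : ℝ}

noncomputable def deg (y : Sym2 V → Bool) (v : V) : ℝ := ∑ j, if v = j then 0 else ind (y s(v, j))
noncomputable def mu (y : Sym2 V → Bool) : ℝ := ∑ v, deg y v
noncomputable def del (p : ℝ) (y : Sym2 V → Bool) (v : V) : ℝ := ∑ j, Y p y v j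

/-- the vertex factors for a given set of bad vertices and a given orientation -/
noncomputable def Phi (p : ℝ) (r : V → V → Prop) [DecidableRel r] (B : Finset V) (v : V)
    (y : Sym2 V → Bool) : ℝ :=
  if v ∈ B then Real.exp (6300 * (∑ j ∈ Bᶜ, ind (y s(v, j))) - (Fintype.card V : ℝ) / 10)
  else if |∑ j ∈ Bᶜ.filter (r v), xi p (y s(v, j))| ≤ (Fintype.card V : ℝ) / 1000 then
    Real.exp (48000 / (Fintype.card V : ℝ) * (∑ j ∈ Bᶜ.filter (r v), xi p (y s(v, j))) ^ 2) else 0

theorem Phi_nonneg (r : V → V → Prop) [DecidableRel r] (B : Finset V) (v : V)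
    (y : Sym2 V → Bool) : 0 ≤ Phi p r B v y := by
  unfold Phi
  split_ifs <;> positivity

theorem Ex_Phi (h0 : 0 ≤ p) (hp : p ≤ Real.exp (-6500)) (hn : 0 < Fintype.card V)
    (r : V → V → Prop) [DecidableRel r] (hr : ∀ a b, r a b → ¬ r b a) (B : Finset V) :
    Ex p (fun y => ∏ v, Phi p r B v y) ≤ 20 ^ Fintype.card V := by
  have h1 : p ≤ 1 := hp.trans (Real.exp_le_one_iff.2 (by norm_num))
  let J : V → Finset V := fun v => if v ∈ B then Bᶜ else Bᶜ.filter (r v)
  rw [Ex_indep (fun v => (J v).image fun j => s(v, j)) (Phi p r B)]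
  · rw [← Finset.card_univ, ← Finset.prod_const]
    apply Finset.prod_le_prod (fun v _ => Ex_nonneg h0 h1 (Phi_nonneg r B v))
    intro v _
    have hinj : ∀ J : Finset V, Set.InjOn (fun j : V => s(v, j)) J :=
      fun J i _ j _ h => Sym2.congr_right.1 h
    have hcard : ∀ J : Finset V, (J.card : ℝ) ≤ Fintype.card V :=
      fun J => by exact_mod_cast Finset.card_le_univ J
    unfold Phi
    by_cases hv : v ∈ B
    · simp only [hv, if_true]
      exact (bad_vertex h0 hp _ _ (hinj _) (hcard _)).trans (by norm_num)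
    · simp only [hv, if_false]
      exact good_vertex h0 hp _ _ (hinj _) (by exact_mod_cast hn) (hcard _)
  · intro v y z h
    have h' : ∀ j ∈ J v, y s(v, j) = z s(v, j) := fun j hj => h _ (Finset.mem_image.2 ⟨j, hj, rfl⟩)
    unfold Phi
    by_cases hv : v ∈ B
    · simp only [J, hv, if_true] at h' ⊢
      rw [Finset.sum_congr rfl fun j hj => by rw [h' j hj]]
    · simp only [J, hv, if_false] at h' ⊢
      rw [Finset.sum_congr rfl fun j hj => by rw [h' j hj]]
  · intro v w hvw
    rw [Finset.disjoint_left]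
    intro e he1 he2
    obtain ⟨j, hj, rfl⟩ := Finset.mem_image.1 he1
    obtain ⟨l, hl, h⟩ := Finset.mem_image.1 he2
    rcases Sym2.eq_iff.1 h with h | h
    · exact hvw h.1.symm
    · obtain ⟨rfl, rfl⟩ := h
      have hsub : ∀ a b, b ∈ J a → b ∉ B := by
        intro a b hb
        by_cases ha : a ∈ B
        · simpa [J, ha] using hb
        · simp only [J, ha, if_false, Finset.mem_filter, Finset.mem_compl] at hb
          exact hb.1
      have a1 := hsub _ _ hj
      have a2 := hsub _ _ hl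
      simp only [J, a1, a2, if_false, Finset.mem_filter] at hj hl
      exact hr _ _ hj.2 hl.2

theorem deg_nonneg (y : Sym2 V → Bool) (v : V) : 0 ≤ deg y v :=
  Finset.sum_nonneg fun j _ => by split_ifs; exacts [le_rfl, ind_nonneg _]

theorem wedge_pointwise (h0 : 0 ≤ p) (hp : p ≤ 1 / 1000) (hn : 0 < Fintype.card V)
    (y : Sym2 V → Bool) (hy : mu y ≤ (Fintype.card V : ℝ) ^ 2 / 10 ^ 12) :
    ∃ B : Finset V, Real.exp (6000 / (Fintype.card V : ℝ) * ∑ v, del p y v ^ 2) ≤
      ∏ v, Phi p (fun a b => b < a) B v y + ∏ v, Phi p (fun a b => a < b) B v y := by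
  have h1 : p ≤ 1 := by linarith
  set n : ℝ := (Fintype.card V : ℝ) with hndef
  have hn0 : 0 < n := by rw [hndef]; exact_mod_cast hn
  set B : Finset V := univ.filter fun v => n / 1000 < deg y v with hB
  refine ⟨B, ?_⟩
  have hcard : ∀ J : Finset V, (J.card : ℝ) ≤ n := fun J => by
    rw [hndef]; exact_mod_cast Finset.card_le_univ J
  have hBc : (B.card : ℝ) ≤ n / 10 ^ 9 := by
    have a1 : (B.card : ℝ) * (n / 1000) ≤ ∑ v ∈ B, deg y v := by
      have := Finset.card_nsmul_le_sum B (deg y) (n / 1000)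
        (fun v hv => (Finset.mem_filter.1 hv).2.le)
      simpa using this
    have a2 : ∑ v ∈ B, deg y v ≤ mu y :=
      Finset.sum_le_sum_of_subset_of_nonneg (Finset.subset_univ _) fun v _ _ => deg_nonneg y v
    have a3 : (B.card : ℝ) * (n / 1000) ≤ n / 10 ^ 9 * (n / 1000) := by
      calc _ ≤ n ^ 2 / 10 ^ 12 := a1.trans (a2.trans hy)
        _ = _ := by ring
    exact le_of_mul_le_mul_right a3 (by positivity)
  have hB0 : (0 : ℝ) ≤ B.card := Nat.cast_nonneg _
  let ext : V → ℝ := fun v => ∑ j ∈ Bᶜ, ind (y s(v, j))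
  let lo : V → ℝ := fun v => ∑ j ∈ Bᶜ.filter (fun b => b < v), xi p (y s(v, j))
  let hi : V → ℝ := fun v => ∑ j ∈ Bᶜ.filter (fun b => v < b), xi p (y s(v, j))
  have hbad : ∀ v ∈ B, 6000 / n * del p y v ^ 2 ≤ 6300 * ext v - n / 10 - 12000 * B.card := by
    intro v hv
    have hd : n / 1000 < deg y v := (Finset.mem_filter.1 hv).2
    have a1 : del p y v ≤ deg y v := Finset.sum_le_sum fun j _ => by
      unfold Y xi; split_ifs <;> linarith
    have a2 : deg y v - p * n ≤ del p y v := by
      have : deg y v - p * n = ∑ j, ((if v = j then 0 else ind (y s(v, j))) - p) := by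
        rw [Finset.sum_sub_distrib, Finset.sum_const, Finset.card_univ, nsmul_eq_mul, mul_comm]
        rfl
      rw [this]
      exact Finset.sum_le_sum fun j _ => by unfold Y xi; split_ifs <;> linarith
    have a3 : deg y v ≤ n := by
      have := Finset.sum_le_card_nsmul univ (fun j => if v = j then (0 : ℝ) else ind (y s(v, j))) 1
        (fun j _ => by split_ifs; exacts [zero_le_one, ind_le_one _])
      unfold deg
      rw [hndef]
      simpa using this
    have a4 : deg y v ≤ B.card + ext v := by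
      unfold deg
      rw [← Finset.sum_add_sum_compl B]
      apply add_le_add
      · have := Finset.sum_le_card_nsmul B (fun j => if v = j then (0 : ℝ) else ind (y s(v, j))) 1
          (fun j _ => by split_ifs; exacts [zero_le_one, ind_le_one _])
        simpa using this
      · exact Finset.sum_le_sum fun j _ => by split_ifs; exacts [ind_nonneg _, le_rfl]
    have a5 : 0 ≤ del p y v := by nlinarith
    have a6 : del p y v ^ 2 ≤ n * deg y v := by nlinarith
    have a7 : 6000 / n * del p y v ^ 2 ≤ 6000 * deg y v := by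
      calc _ ≤ 6000 / n * (n * deg y v) := mul_le_mul_of_nonneg_left a6 (by positivity)
        _ = _ := by field_simp
    nlinarith
  have hgood : ∀ v ∈ Bᶜ, 6000 / n * del p y v ^ 2 ≤
      12000 / n * (B.card : ℝ) ^ 2 + (48000 / n * lo v ^ 2) / 2 + (48000 / n * hi v ^ 2) / 2 := by
    intro v hv
    have a1 : del p y v = ∑ j ∈ B, Y p y v j + lo v + hi v := by
      unfold del
      rw [← Finset.sum_add_sum_compl B, add_assoc]
      congr 1
      simp only [lo, hi, Finset.sum_filter, ← Finset.sum_add_distrib]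
      refine Finset.sum_congr rfl fun j _ => ?_
      unfold Y
      rcases lt_trichotomy v j with h | h | h
      · simp [h, h.ne, h.not_gt]
      · simp [h]
      · simp [h, h.ne', h.not_gt]
    have a2 : |∑ j ∈ B, Y p y v j| ≤ B.card := by
      refine (Finset.abs_sum_le_sum_abs _ _).trans ?_
      have := Finset.sum_le_card_nsmul B (fun j => |Y p y v j|) 1
        (fun j _ => by unfold Y; split_ifs; exacts [by simp, abs_xi_le h0 h1 _])
      simpa using this
    have a3 : (∑ j ∈ B, Y p y v j) ^ 2 ≤ (B.card : ℝ) ^ 2 := by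
      rw [← sq_abs]; exact pow_le_pow_left₀ (abs_nonneg _) a2 2
    have a4 : del p y v ^ 2 ≤ 2 * (B.card : ℝ) ^ 2 + 4 * lo v ^ 2 + 4 * hi v ^ 2 := by
      rw [a1]
      nlinarith [sq_nonneg (∑ j ∈ B, Y p y v j - lo v - hi v), sq_nonneg (lo v - hi v)]
    calc _ ≤ 6000 / n * (2 * (B.card : ℝ) ^ 2 + 4 * lo v ^ 2 + 4 * hi v ^ 2) :=
          mul_le_mul_of_nonneg_left a4 (by positivity)
      _ = _ := by ring
  have hsmall : ∀ v ∈ Bᶜ, ∀ J : Finset V, (∀ j ∈ J, v ≠ j) →
      |∑ j ∈ J, xi p (y s(v, j))| ≤ n / 1000 := by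
    intro v hv J hJ
    have hd : deg y v ≤ n / 1000 := by
      have := Finset.mem_compl.1 hv
      simpa [hB] using this
    have a1 : ∑ j ∈ J, xi p (y s(v, j)) = ∑ j ∈ J, ind (y s(v, j)) - p * J.card := by
      unfold xi
      rw [Finset.sum_sub_distrib, Finset.sum_const, nsmul_eq_mul, mul_comm]
    have a2 : ∑ j ∈ J, ind (y s(v, j)) ≤ deg y v := by
      have : ∑ j ∈ J, ind (y s(v, j)) = ∑ j ∈ J, if v = j then 0 else ind (y s(v, j)) :=
        Finset.sum_congr rfl fun j hj => by rw [if_neg (hJ j hj)]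
      rw [this]
      exact Finset.sum_le_sum_of_subset_of_nonneg (Finset.subset_univ _) fun j _ _ => by
        split_ifs; exacts [le_rfl, ind_nonneg _]
    have a3 : 0 ≤ ∑ j ∈ J, ind (y s(v, j)) := Finset.sum_nonneg fun j _ => ind_nonneg _
    have a4 := hcard J
    have a5 : (0 : ℝ) ≤ J.card := Nat.cast_nonneg _
    rw [a1, abs_le]
    constructor <;> nlinarith
  set A := ∑ v ∈ B, (6300 * ext v - n / 10) with hA
  set L := ∑ v ∈ Bᶜ, 48000 / n * lo v ^ 2 with hL
  set H := ∑ v ∈ Bᶜ, 48000 / n * hi v ^ 2 with hH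
  have htot : 6000 / n * ∑ v, del p y v ^ 2 ≤ A + (L / 2 + H / 2) := by
    rw [Finset.mul_sum, ← Finset.sum_add_sum_compl B]
    have a1 := Finset.sum_le_sum hbad
    have a2 := Finset.sum_le_sum hgood
    rw [Finset.sum_sub_distrib, Finset.sum_const, nsmul_eq_mul, ← hA] at a1
    rw [Finset.sum_add_distrib, Finset.sum_add_distrib, Finset.sum_const, nsmul_eq_mul,
      ← Finset.sum_div, ← Finset.sum_div, ← hL, ← hH] at a2
    have a3 : (Bᶜ.card : ℝ) * (12000 / n * (B.card : ℝ) ^ 2) ≤ B.card * (12000 * B.card) := by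
      calc _ ≤ n * (12000 / n * (B.card : ℝ) ^ 2) :=
            mul_le_mul_of_nonneg_right (hcard _) (by positivity)
        _ = _ := by field_simp
    linarith
  have e1 : ∏ v, Phi p (fun a b => b < a) B v y = Real.exp (A + L) := by
    rw [← Finset.prod_mul_prod_compl B, Real.exp_add, hA, hL, Real.exp_sum, Real.exp_sum]
    congr 1
    · exact Finset.prod_congr rfl fun v hv => by unfold Phi; rw [if_pos hv]
    · refine Finset.prod_congr rfl fun v hv => ?_
      unfold Phi
      rw [if_neg (Finset.mem_compl.1 hv), if_pos]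
      exact hsmall v hv _ fun j hj => (Finset.mem_filter.1 hj).2.ne'
  have e2 : ∏ v, Phi p (fun a b => a < b) B v y = Real.exp (A + H) := by
    rw [← Finset.prod_mul_prod_compl B, Real.exp_add, hA, hH, Real.exp_sum, Real.exp_sum]
    congr 1
    · exact Finset.prod_congr rfl fun v hv => by unfold Phi; rw [if_pos hv]
    · refine Finset.prod_congr rfl fun v hv => ?_
      unfold Phi
      rw [if_neg (Finset.mem_compl.1 hv), if_pos]
      exact hsmall v hv _ fun j hj => (Finset.mem_filter.1 hj).2.ne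
  rw [e1, e2]
  refine (Real.exp_le_exp.2 htot).trans ?_
  rcases le_total L H with h | h
  · have : Real.exp (A + (L / 2 + H / 2)) ≤ Real.exp (A + H) := Real.exp_le_exp.2 (by linarith)
    linarith [Real.exp_pos (A + L)]
  · have : Real.exp (A + (L / 2 + H / 2)) ≤ Real.exp (A + L) := Real.exp_le_exp.2 (by linarith)
    linarith [Real.exp_pos (A + H)]

theorem wedge_bound (h0 : 0 ≤ p) (hp : p ≤ Real.exp (-6500)) (hn : 0 < Fintype.card V) :
    Ex p (fun y : Sym2 V → Bool => if mu y ≤ (Fintype.card V : ℝ) ^ 2 / 10 ^ 12 then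
      Real.exp (6000 / (Fintype.card V : ℝ) * ∑ v, del p y v ^ 2) else 0) ≤
      2 * 40 ^ Fintype.card V := by
  have h1 : p ≤ 1 := hp.trans (Real.exp_le_one_iff.2 (by norm_num))
  have hp2 : p ≤ 1 / 1000 := by
    have := p_small2 hp (x := 0) (by norm_num)
    rw [Real.exp_zero] at this
    nlinarith
  refine (Ex_mono h0 h1 (G := fun y => ∑ B : Finset V,
    (∏ v, Phi p (fun a b => b < a) B v y + ∏ v, Phi p (fun a b => a < b) B v y))
    fun y => ?_).trans ?_
  · have hnn : ∀ B : Finset V, 0 ≤ ∏ v, Phi p (fun a b => b < a) B v y +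
        ∏ v, Phi p (fun a b => a < b) B v y := fun B =>
      add_nonneg (Finset.prod_nonneg fun v _ => Phi_nonneg _ _ _ _)
        (Finset.prod_nonneg fun v _ => Phi_nonneg _ _ _ _)
    split_ifs with h
    · obtain ⟨B, hB⟩ := wedge_pointwise h0 hp2 hn y h
      exact hB.trans (Finset.single_le_sum (f := fun B : Finset V =>
        ∏ v, Phi p (fun a b => b < a) B v y + ∏ v, Phi p (fun a b => a < b) B v y)
        (fun B _ => hnn B) (Finset.mem_univ B))
    · exact Finset.sum_nonneg fun B _ => hnn B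
  · rw [Ex_sum]
    have : ∀ B ∈ (univ : Finset (Finset V)), Ex p (fun y => ∏ v, Phi p (fun a b => b < a) B v y +
        ∏ v, Phi p (fun a b => a < b) B v y) ≤ 2 * 20 ^ Fintype.card V := by
      intro B _
      rw [Ex_add]
      have a1 := Ex_Phi h0 hp hn (fun a b : V => b < a) (fun a b h => h.not_gt) B
      have a2 := Ex_Phi h0 hp hn (fun a b : V => a < b) (fun a b h => h.not_gt) B
      linarith
    refine (Finset.sum_le_sum this).trans (le_of_eq ?_)
    rw [Finset.sum_const, Finset.card_univ, Fintype.card_finset, nsmul_eq_mul]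
    push_cast
    rw [show (40 : ℝ) = 2 * 20 by norm_num, mul_pow]
    ring

end Pool.Agent.H793Z.Erg
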