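import Mathlib
import Pool.Agent.H793Z.Erg.Wedge

set_option autoImplicit false

namespace Pool.Agent.H793Z.Erg

open Finset

section alg

variable {V : Type} [Fintype V] [DecidableEq V]

noncomputable def S3 (A B C : V → V → ℝ) : ℝ := ∑ i, ∑ j, ∑ k, A i j * B j k * C k i

noncomputable def K (i j : V) : ℝ := if i = j then 0 else 1

omit [DecidableEq V] in
theorem S3_cyc (A B C : V → V → ℝ) : S3 A B C = S3 B C A := by
  unfold S3
  rw [Finset.sum_comm]
  refine Finset.sum_congr rfl fun j _ => ?_
  rw [Finset.sum_comm]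
  exact Finset.sum_congr rfl fun k _ => Finset.sum_congr rfl fun i _ => by ring

theorem sum_K (i : V) : ∑ j, K i j = (Fintype.card V : ℝ) - 1 := by
  have : ∀ j, K i j = 1 - if i = j then (1 : ℝ) else 0 := by
    intro j; unfold K; split_ifs <;> simp
  simp only [this, Finset.sum_sub_distrib]
  simp

theorem S3_KK (A : V → V → ℝ) (hA : ∀ i, A i i = 0) :
    S3 A K K = ((Fintype.card V : ℝ) - 2) * ∑ i, ∑ j, A i j := by
  unfold S3
  rw [Finset.mul_sum]
  refine Finset.sum_congr rfl fun i _ => ?_
  rw [Finset.mul_sum]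
  refine Finset.sum_congr rfl fun j _ => ?_
  by_cases h : i = j
  · subst h; simp [hA]
  · have : ∀ k, A i j * K j k * K k i =
        A i j * (1 - (if j = k then (1 : ℝ) else 0) - (if k = i then (1 : ℝ) else 0)) := by
      intro k
      unfold K
      by_cases h1 : j = k
      · have h2 : ¬ k = i := fun e => h (by rw [h1, e])
        simp [h1, h2]
      · by_cases h2 : k = i
        · have h3 : ¬ j = i := fun e => h e.symm
          simp [h2, h3]
        · simp [h1, h2]
    simp only [this, ← Finset.mul_sum, Finset.sum_sub_distrib]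
    simp
    ring

theorem S3_YYK (A : V → V → ℝ) (hs : ∀ i j, A i j = A j i) :
    S3 A A K = ∑ j, (∑ i, A j i) ^ 2 - ∑ i, ∑ j, A i j ^ 2 := by
  unfold S3
  have : ∀ i j k, A i j * A j k * K k i =
      A j i * A j k - if k = i then A i j * A j k else 0 := by
    intro i j k
    unfold K
    rw [hs j i]
    split_ifs <;> simp
  simp only [this, Finset.sum_sub_distrib]
  congr 1
  · rw [Finset.sum_comm]
    refine Finset.sum_congr rfl fun j _ => ?_
    rw [sq, Finset.sum_mul_sum]
  · refine Finset.sum_congr rfl fun i _ => Finset.sum_congr rfl fun j _ => ?_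
    simp [hs j i, sq]

theorem S3_expand (q : ℝ) (A : V → V → ℝ) (hs : ∀ i j, A i j = A j i) (hA : ∀ i, A i i = 0) :
    S3 (fun i j => q * K i j - A i j) (fun i j => q * K i j - A i j)
      (fun i j => q * K i j - A i j) =
    q ^ 3 * ((Fintype.card V : ℝ) * ((Fintype.card V : ℝ) - 1) * ((Fintype.card V : ℝ) - 2)) -
      3 * q ^ 2 * (((Fintype.card V : ℝ) - 2) * ∑ i, ∑ j, A i j) +
      3 * q * (∑ j, (∑ i, A j i) ^ 2 - ∑ i, ∑ j, A i j ^ 2) - S3 A A A := by
  have e : S3 (fun i j => q * K i j - A i j) (fun i j => q * K i j - A i j)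
      (fun i j => q * K i j - A i j) =
      q ^ 3 * S3 (K (V := V)) K K - q ^ 2 * (S3 A K K + S3 K A K + S3 K K A) +
        q * (S3 A A K + S3 A K A + S3 K A A) - S3 A A A := by
    unfold S3
    simp only [Finset.mul_sum, mul_add, ← Finset.sum_add_distrib, ← Finset.sum_sub_distrib]
    exact Finset.sum_congr rfl fun i _ => Finset.sum_congr rfl fun j _ =>
      Finset.sum_congr rfl fun k _ => by ring
  rw [e, S3_cyc K A K, ← S3_cyc A K K |>.symm, S3_cyc K K A, S3_cyc K A K, S3_cyc K A A,
    S3_cyc A K A, S3_cyc K A A, S3_KK A hA, S3_YYK A hs, S3_KK K (fun i => by simp [K])]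
  simp only [sum_K, Finset.sum_const, Finset.card_univ, nsmul_eq_mul]
  ring

omit [DecidableEq V] in
theorem S3_sq_le (A : V → V → ℝ) (hs : ∀ i j, A i j = A j i) (h01 : ∀ i j, A i j ^ 2 = A i j) :
    S3 A A A ^ 2 ≤ (∑ i, ∑ j, A i j) ^ 3 := by
  have h1 := Finset.sum_mul_sq_le_sq_mul_sq (univ ×ˢ univ) (fun x : V × V => A x.1 x.2)
    (fun x : V × V => ∑ k, A x.2 k * A k x.1)
  simp only [Finset.sum_product, h01] at h1
  have e : S3 A A A = ∑ i, ∑ j, A i j * ∑ k, A j k * A k i := by
    unfold S3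
    simp only [Finset.mul_sum, mul_assoc]
  have h2 : ∑ i, ∑ j, (∑ k, A j k * A k i) ^ 2 ≤ (∑ i, ∑ j, A i j) ^ 2 := by
    rw [sq (∑ i, ∑ j, A i j), Finset.sum_mul_sum]
    refine Finset.sum_le_sum fun i _ => Finset.sum_le_sum fun j _ => ?_
    have := Finset.sum_mul_sq_le_sq_mul_sq univ (fun k => A j k) (fun k => A k i)
    simp only [h01] at this
    rw [mul_comm (∑ k, A i k)]
    simpa only [hs i] using this
  have h3 : 0 ≤ ∑ i, ∑ j, A i j :=
    Finset.sum_nonneg fun i _ => Finset.sum_nonneg fun j _ => by rw [← h01]; exact sq_nonneg _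
  rw [e]
  calc _ ≤ _ := h1
    _ ≤ (∑ i, ∑ j, A i j) * (∑ i, ∑ j, A i j) ^ 2 := mul_le_mul_of_nonneg_left h2 h3
    _ = _ := by ring

end alg

section sym

variable {V : Type} [Fintype V] [LinearOrder V]

theorem sum_offdiag (g : Sym2 V → ℝ) :
    ∑ i, ∑ j, (if i = j then 0 else g s(i, j)) = 2 * ∑ e ∈ univ.filter (fun e : Sym2 V => ¬ e.IsDiag), g e := by
  have h := Finset.sum_sym2_filter_not_isDiag (univ : Finset V) g
  rw [Finset.sym2_univ] at h
  have h2 : ∑ x ∈ (univ : Finset V).offDiag with x.1 < x.2, g s(x.1, x.2) =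
      ∑ i, ∑ j, if i < j then g s(i, j) else 0 := by
    rw [← Finset.sum_product', ← Finset.sum_filter]
    apply Finset.sum_congr _ fun _ _ => rfl
    ext x
    simp only [Finset.mem_filter, Finset.mem_offDiag, Finset.mem_univ, true_and,
      Finset.mem_product, and_iff_right_iff_imp]
    exact fun h => h.ne
  have h3 : ∑ i, ∑ j, (if j < i then g s(i, j) else 0) =
      ∑ i, ∑ j, if i < j then g s(i, j) else 0 := by
    rw [Finset.sum_comm]
    exact Finset.sum_congr rfl fun i _ => Finset.sum_congr rfl fun j _ => by rw [Sym2.eq_swap]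
  rw [h, h2, two_mul]
  nth_rewrite 1 [← h3]
  simp only [← Finset.sum_add_distrib]
  refine Finset.sum_congr rfl fun i _ => Finset.sum_congr rfl fun j _ => ?_
  rcases lt_trichotomy i j with h | h | h
  · simp [h, h.ne, h.not_gt]
  · simp [h]
  · simp [h, h.ne', h.not_gt]

theorem card_diag : (univ.filter (fun e : Sym2 V => e.IsDiag)).card = Fintype.card V := by
  rw [← Sym2.card_subtype_diag, Fintype.card_subtype]

theorem card_sym2_le : (Fintype.card (Sym2 V) : ℝ) ≤ (Fintype.card V : ℝ) ^ 2 := by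
  have := Fintype.card_le_of_surjective (fun x : V × V => s(x.1, x.2)) (by
    intro e
    induction e using Sym2.ind with
    | h a b => exact ⟨(a, b), rfl⟩)
  rw [Fintype.card_prod] at this
  rw [sq]
  exact_mod_cast this

theorem le_card_sym2 :
    (Fintype.card V : ℝ) * ((Fintype.card V : ℝ) - 1) / 2 ≤ Fintype.card (Sym2 V) := by
  have h := sum_offdiag (V := V) (fun _ => 1)
  have h2 : ∑ i : V, ∑ j : V, (if i = j then (0 : ℝ) else 1) =
      (Fintype.card V : ℝ) * ((Fintype.card V : ℝ) - 1) := by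
    have := fun i : V => sum_K i
    unfold K at this
    simp only [this, Finset.sum_const, Finset.card_univ, nsmul_eq_mul]
  rw [h2, Finset.sum_const, nsmul_eq_mul, mul_one] at h
  have h3 : ((univ.filter (fun e : Sym2 V => ¬ e.IsDiag)).card : ℝ) ≤ Fintype.card (Sym2 V) := by
    exact_mod_cast Finset.card_le_univ _
  linarith

noncomputable def X (y : Sym2 V → Bool) (i j : V) : ℝ := if i = j then 0 else 1 - ind (y s(i, j))

omit [Fintype V] in
theorem X_eq (p : ℝ) (y : Sym2 V → Bool) : X y = fun i j => (1 - p) * K i j - Y p y i j := by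
  ext i j
  unfold X K Y xi
  split_ifs <;> ring

theorem sum_X (y : Sym2 V → Bool) :
    ∑ i, ∑ j, X y i j = (Fintype.card V : ℝ) * ((Fintype.card V : ℝ) - 1) - mu y := by
  have : ∀ i j, X y i j = K i j - if i = j then 0 else ind (y s(i, j)) := by
    intro i j; unfold X K; split_ifs <;> simp
  simp only [this, Finset.sum_sub_distrib, sum_K, Finset.sum_const, Finset.card_univ, nsmul_eq_mul]
  unfold mu deg
  ring

theorem sum_Y (p : ℝ) (y : Sym2 V → Bool) :
    ∑ i, ∑ j, Y p y i j = mu y - p * ((Fintype.card V : ℝ) * ((Fintype.card V : ℝ) - 1)) := by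
  have : ∀ i j, Y p y i j = (if i = j then 0 else ind (y s(i, j))) - p * K i j := by
    intro i j; unfold Y K xi; split_ifs <;> simp
  simp only [this, Finset.sum_sub_distrib, ← Finset.mul_sum, sum_K, Finset.sum_const,
    Finset.card_univ, nsmul_eq_mul]
  unfold mu deg
  ring

theorem Fr_le {p : ℝ} (h0 : 0 ≤ p) (y : Sym2 V → Bool) :
    Fr p univ y ≤ mu y + p ^ 2 * (Fintype.card V : ℝ) ^ 2 := by
  have : ∀ i j, Y p y i j ^ 2 ≤ (if i = j then 0 else ind (y s(i, j))) + p ^ 2 := by
    intro i j
    unfold Y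
    split_ifs
    · nlinarith [sq_nonneg p]
    · exact xi_sq_le h0 _
  refine (Finset.sum_le_sum fun i _ => Finset.sum_le_sum fun j _ => this i j).trans (le_of_eq ?_)
  simp only [Finset.sum_add_distrib, Finset.sum_const, Finset.card_univ, nsmul_eq_mul]
  unfold mu deg
  ring

theorem mu_nonneg (y : Sym2 V → Bool) : 0 ≤ mu y := Finset.sum_nonneg fun v _ => deg_nonneg y v

/-- sums over all unordered pairs for configurations with no diagonal mark -/
theorem sum_nodiag (y : Sym2 V → Bool) (hy : ∀ e, e.IsDiag → y e = false) (a b : ℝ) :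
    ∑ e, (if y e then a else b) = Fintype.card V * b + mu y / 2 * a +
      ((Fintype.card V : ℝ) * ((Fintype.card V : ℝ) - 1) - mu y) / 2 * b := by
  rw [← Finset.sum_filter_add_sum_filter_not univ (fun e : Sym2 V => e.IsDiag)]
  have h1 : ∑ e ∈ univ.filter (fun e : Sym2 V => e.IsDiag), (if y e then a else b) =
      Fintype.card V * b := by
    rw [← card_diag, ← nsmul_eq_mul, ← Finset.sum_const]
    exact Finset.sum_congr rfl fun e he => by simp [hy e (Finset.mem_filter.1 he).2]
  have h2 := sum_offdiag (fun e => if y e then a else b)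
  have h3 : ∀ i j : V, (if i = j then 0 else if y s(i, j) then a else b) =
      (if i = j then 0 else ind (y s(i, j))) * a + X y i j * b := by
    intro i j
    unfold X ind
    split_ifs <;> simp
  simp only [h3, Finset.sum_add_distrib, ← Finset.sum_mul, sum_X] at h2
  have h4 : ∑ i : V, ∑ j : V, (if i = j then 0 else ind (y s(i, j))) = mu y := rfl
  rw [h4] at h2
  rw [h1]
  linarith

end sym

section graph

open Classical

variable {V : Type} [Fintype V] [LinearOrder V]

noncomputable def AX (G : SimpleGraph V) (i j : V) : ℝ := if G.Adj i j then 1 else 0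

noncomputable def yG (G : SimpleGraph V) (e : Sym2 V) : Bool := decide (¬ e.IsDiag ∧ e ∉ G.edgeSet)

def gr (y : Sym2 V → Bool) : SimpleGraph V where
  Adj i j := i ≠ j ∧ y s(i, j) = false
  symm := ⟨fun i j h => ⟨h.1.symm, by rw [Sym2.eq_swap]; exact h.2⟩⟩
  loopless := ⟨fun i h => h.1 rfl⟩

omit [Fintype V] in
theorem X_gr (y : Sym2 V → Bool) : X y = AX (gr y) := by
  ext i j
  unfold X AX gr ind
  by_cases h : i = j <;> cases hy : y s(i, j) <;> simp [h, hy]

omit [Fintype V] in
theorem gr_yG (G : SimpleGraph V) : gr (yG G) = G := by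
  ext i j
  simp only [gr, yG, Sym2.mk_isDiag_iff, SimpleGraph.mem_edgeSet, decide_eq_false_iff_not, not_and,
    not_not]
  exact ⟨fun h => h.2 h.1, fun h => ⟨h.ne, fun _ => h⟩⟩

omit [Fintype V] in
theorem yG_diag (G : SimpleGraph V) (e : Sym2 V) (he : e.IsDiag) : yG G e = false := by
  simp [yG, he]

omit [Fintype V] in
theorem yG_inj : Function.Injective (yG (V := V)) := fun G H h => by
  rw [← gr_yG G, h, gr_yG]

omit [LinearOrder V] in
theorem sum_AX (G : SimpleGraph V) : ∑ i, ∑ j, AX G i j = 2 * (G.edgeFinset.card : ℝ) := by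
  have h := G.sum_degrees_eq_twice_card_edges
  have h2 : ∀ i, ∑ j, AX G i j = (G.degree i : ℝ) := by
    intro i
    unfold AX
    rw [Finset.sum_boole, ← SimpleGraph.card_neighborFinset_eq_degree, SimpleGraph.neighborFinset_eq_filter]
  simp only [h2]
  exact_mod_cast h

theorem S3_AX (G : SimpleGraph V) : S3 (AX G) (AX G) (AX G) = 6 * ((G.cliqueFinset 3).card : ℝ) := by
  let P : Finset (V × V × V) := univ.filter fun x => G.Adj x.1 x.2.1 ∧ G.Adj x.2.1 x.2.2 ∧ G.Adj x.2.2 x.1
  have h1 : S3 (AX G) (AX G) (AX G) = (P.card : ℝ) := by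
    unfold S3
    simp only [P]
    rw [← Finset.sum_boole, Fintype.sum_prod_type]
    refine Finset.sum_congr rfl fun i _ => ?_
    rw [Fintype.sum_prod_type]
    refine Finset.sum_congr rfl fun j _ => Finset.sum_congr rfl fun k _ => ?_
    unfold AX
    by_cases a : G.Adj i j <;> by_cases b : G.Adj j k <;> by_cases c : G.Adj k i <;> simp [a, b, c]
  have h2 : P.card = ∑ t ∈ G.cliqueFinset 3, (P.filter fun x => ({x.1, x.2.1, x.2.2} : Finset V) = t).card := by
    apply Finset.card_eq_sum_card_fiberwise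
    intro x hx
    have hx' := (Finset.mem_filter.1 hx).2
    rw [Finset.mem_coe, SimpleGraph.mem_cliqueFinset_iff, SimpleGraph.is3Clique_triple_iff]
    exact ⟨hx'.1, hx'.2.2.symm, hx'.2.1⟩
  have h3 : ∀ t ∈ G.cliqueFinset 3,
      (P.filter fun x => ({x.1, x.2.1, x.2.2} : Finset V) = t).card = 6 := by
    intro t ht
    rw [SimpleGraph.mem_cliqueFinset_iff, SimpleGraph.is3Clique_iff] at ht
    obtain ⟨a, b, c, hab, hac, hbc, rfl⟩ := ht
    have e : (P.filter fun x => ({x.1, x.2.1, x.2.2} : Finset V) = {a, b, c}) =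
        {(a, b, c), (a, c, b), (b, a, c), (b, c, a), (c, a, b), (c, b, a)} := by
      ext ⟨x, y, z⟩
      simp only [P, Finset.mem_filter, Finset.mem_univ, true_and, Finset.mem_insert,
        Finset.mem_singleton, Prod.mk.injEq]
      constructor
      · rintro ⟨⟨h1, h2, h3⟩, h4⟩
        have hx : x ∈ ({a, b, c} : Finset V) := by rw [← h4]; simp
        have hy : y ∈ ({a, b, c} : Finset V) := by rw [← h4]; simp
        have hz : z ∈ ({a, b, c} : Finset V) := by rw [← h4]; simp
        have n1 := h1.ne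
        have n2 := h2.ne
        have n3 := h3.ne
        simp only [Finset.mem_insert, Finset.mem_singleton] at hx hy hz
        rcases hx with rfl | rfl | rfl <;> rcases hy with rfl | rfl | rfl <;>
          rcases hz with rfl | rfl | rfl <;> simp_all
      · have hba := hab.symm
        have hca := hac.symm
        have hcb := hbc.symm
        rintro (⟨rfl, rfl, rfl⟩ | ⟨rfl, rfl, rfl⟩ | ⟨rfl, rfl, rfl⟩ | ⟨rfl, rfl, rfl⟩ |
          ⟨rfl, rfl, rfl⟩ | ⟨rfl, rfl, rfl⟩) <;> refine ⟨⟨‹_›, ‹_›, ‹_›⟩, ?_⟩ <;> ext <;> simp <;>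
          tauto
    rw [e]
    have n1 := hab.ne
    have n2 := hac.ne
    have n3 := hbc.ne
    have n4 := n1.symm
    have n5 := n2.symm
    have n6 := n3.symm
    rw [Finset.card_insert_of_notMem (by simp [*]), Finset.card_insert_of_notMem (by simp [*]),
      Finset.card_insert_of_notMem (by simp [*]), Finset.card_insert_of_notMem (by simp [*]),
      Finset.card_insert_of_notMem (by simp [*]), Finset.card_singleton]
  rw [h1, h2, Finset.sum_congr rfl h3, Finset.sum_const, smul_eq_mul]
  push_cast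
  ring

end graph

end Pool.Agent.H793Z.Erg
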