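import Mathlib

set_option autoImplicit false

namespace Pool.Agent.H793Z.Erg

open Set

noncomputable def phi (h v : ℝ) : ℝ :=
  10000 * v ^ 3 / 3 + h * v - (v * Real.log v + (1 - v) * Real.log (1 - v))

theorem phi_cont : Continuous (fun x : ℝ × ℝ => phi x.1 x.2) := by
  unfold phi
  have h1 : Continuous (fun x : ℝ × ℝ => x.2 * Real.log x.2) :=
    Real.continuous_mul_log.comp continuous_snd
  have h2 : Continuous (fun x : ℝ × ℝ => (1 - x.2) * Real.log (1 - x.2)) :=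
    Real.continuous_mul_log.comp (continuous_const.sub continuous_snd)
  exact ((by fun_prop : Continuous fun x : ℝ × ℝ => 10000 * x.2 ^ 3 / 3 + x.1 * x.2).sub
    (h1.add h2))

theorem ent_le {t : ℝ} (h0 : 0 ≤ t) (h1 : t ≤ 1) :
    -(t * Real.log t + (1 - t) * Real.log (1 - t)) ≤ 10 * t + 1 / 61 := by
  have a : -(t * Real.log t) ≤ 10 * t + Real.exp (-10) - t := by
    rcases h0.eq_or_lt with rfl | h0
    · simpa using (Real.exp_pos _).le
    · have := Real.log_le_sub_one_of_pos (div_pos (Real.exp_pos (-10)) h0)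
      rw [Real.log_div (Real.exp_pos _).ne' h0.ne', Real.log_exp] at this
      have h2 := mul_le_mul_of_nonneg_left this h0.le
      have e : t * (Real.exp (-10) / t - 1) = Real.exp (-10) - t := by field_simp
      linarith
  have b : -((1 - t) * Real.log (1 - t)) ≤ t := by
    rcases h1.eq_or_lt with rfl | h1
    · simp
    · have h0' : 0 < 1 - t := by linarith
      have := Real.one_sub_inv_le_log_of_pos h0'
      have h2 := mul_le_mul_of_nonneg_left this h0'.le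
      have e : (1 - t) * (1 - (1 - t)⁻¹) = -t := by field_simp; ring
      linarith
  have c : Real.exp (-10) ≤ 1 / 61 := by
    have := Real.quadratic_le_exp_of_nonneg (show (0 : ℝ) ≤ 10 by norm_num)
    rw [Real.exp_neg, one_div]
    exact inv_anti₀ (by norm_num) (by linarith)
  linarith

theorem phi_low {h v : ℝ} (hh : h ≤ -10000 / 3 + 1) (h0 : 0 ≤ v) (h1 : v ≤ 1 / 2) :
    phi h v ≤ -2489 * v + 1 / 61 := by
  have := ent_le h0 (by linarith)
  unfold phi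
  have a : v ^ 3 ≤ v / 4 := by nlinarith [mul_nonneg h0 h0]
  nlinarith

theorem phi_one (h : ℝ) : phi h 1 = 10000 / 3 + h := by simp [phi]

theorem phi_high {h v : ℝ} (hh : -10000 / 3 - 1 ≤ h) (h0 : 1 / 2 ≤ v) (h1 : v ≤ 1) :
    phi h v ≤ phi h 1 - 2489 * (1 - v) + 1 / 61 := by
  have := ent_le (t := 1 - v) (by linarith) (by linarith)
  rw [sub_sub_cancel] at this
  rw [phi_one]
  unfold phi
  have a : v ^ 3 ≤ 1 - 7 / 4 * (1 - v) := by
    have : 0 ≤ (1 - v) * (v ^ 2 + v - 3 / 4) := mul_nonneg (by linarith) (by nlinarith)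
    nlinarith
  nlinarith

theorem phi_pos {h : ℝ} (hh : h ≤ 0) : ∃ v ∈ Icc (0 : ℝ) 1, phi h 0 < phi h v := by
  have h0 := Real.exp_pos (h - 1)
  have h1 : Real.exp (h - 1) ≤ 1 := Real.exp_le_one_iff.2 (by linarith)
  refine ⟨Real.exp (h - 1), ⟨h0.le, h1⟩, ?_⟩
  unfold phi
  rw [Real.log_exp]
  have a := Real.mul_log_nonpos (x := 1 - Real.exp (h - 1)) (by linarith) (by linarith)
  have b : 0 < Real.exp (h - 1) ^ 3 := by positivity
  simp only [zero_mul, sub_zero, Real.log_one, mul_zero]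
  nlinarith

theorem phi_gt_one {h : ℝ} (hh : h < 0) : ∃ v ∈ Icc (0 : ℝ) 1, phi h 1 < phi h v := by
  have h0 := Real.exp_pos (-10000)
  have h1 : Real.exp (-10000) ≤ 1 := Real.exp_le_one_iff.2 (by linarith)
  refine ⟨1 - Real.exp (-10000), ⟨by linarith, by linarith⟩, ?_⟩
  rw [phi_one]
  unfold phi
  rw [sub_sub_cancel, Real.log_exp]
  have a := Real.mul_log_nonpos (x := 1 - Real.exp (-10000)) (by linarith) (by linarith)
  set t := Real.exp (-10000)
  have b : 1 - 3 * t ≤ (1 - t) ^ 3 := by nlinarith [mul_nonneg h0.le h0.le]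
  nlinarith

theorem stationary {h v : ℝ} (h0 : 0 < v) (h1 : v < 1) (hm : ∀ w ∈ Icc (0 : ℝ) 1, phi h w ≤ phi h v) :
    Real.log v - Real.log (1 - v) = h + 10000 * v ^ 2 := by
  have hl : IsLocalMax (phi h) v := by
    filter_upwards [Icc_mem_nhds h0 h1] with w hw using hm w hw
  have h1' : 1 - v ≠ 0 := by linarith
  have d1 : HasDerivAt (fun w : ℝ => w * Real.log w) (Real.log v + 1) v :=
    Real.hasDerivAt_mul_log h0.ne'
  have d2 : HasDerivAt (fun w : ℝ => (1 - w) * Real.log (1 - w)) ((Real.log (1 - v) + 1) * (-1)) v :=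
    (Real.hasDerivAt_mul_log h1').comp v ((hasDerivAt_id v).const_sub 1)
  have d3 : HasDerivAt (fun w : ℝ => 10000 * w ^ 3 / 3 + h * w) (10000 * v ^ 2 + h) v := by
    have := (((hasDerivAt_pow 3 v).const_mul 10000).div_const 3).add ((hasDerivAt_id v).const_mul h)
    refine this.congr_deriv ?_
    norm_num
    ring
  have := hl.hasDerivAt_eq_zero (d3.sub (d1.add d2))
  linarith

theorem stat_lt {h a b : ℝ} (ha : 0 < a) (hab : a < b) (hb : b < 1)
    (sa : Real.log a - Real.log (1 - a) = h + 10000 * a ^ 2)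
    (sb : Real.log b - Real.log (1 - b) = h + 10000 * b ^ 2) :
    1 / 100000 < b ∧ 1 / 100000 < 1 - a := by
  have hb0 : 0 < b := by linarith
  have l1 := Real.log_le_sub_one_of_pos (div_pos ha hb0)
  rw [Real.log_div ha.ne' hb0.ne'] at l1
  have l2 := Real.log_le_sub_one_of_pos (div_pos (show 0 < 1 - b by linarith) (show 0 < 1 - a by linarith))
  rw [Real.log_div (by linarith) (by linarith)] at l2
  have m1 : a / b ≤ 1 := (div_le_one hb0).2 hab.le
  have m2 : (1 - b) / (1 - a) ≤ 1 := (div_le_one (by linarith)).2 (by linarith)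
  have e1 : a / b * b = a := by field_simp
  have e2 : (1 - b) / (1 - a) * (1 - a) = 1 - b := by
    have : 1 - a ≠ 0 := by linarith
    field_simp
  have hd : 0 < b - a := by linarith
  constructor
  · by_contra hc
    push Not at hc
    have k : 1 - a / b ≤ 10000 * (b ^ 2 - a ^ 2) := by linarith
    have k2 := mul_le_mul_of_nonneg_right k hb0.le
    have k3 : (b - a) * 1 ≤ (b - a) * (10000 * (a + b) * b) := by nlinarith
    have k4 := le_of_mul_le_mul_left k3 hd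
    nlinarith
  · by_contra hc
    push Not at hc
    have k : 1 - (1 - b) / (1 - a) ≤ 10000 * (b ^ 2 - a ^ 2) := by linarith
    have k2 := mul_le_mul_of_nonneg_right k (show 0 ≤ 1 - a by linarith)
    have k3 : (b - a) * 1 ≤ (b - a) * (10000 * (a + b) * (1 - a)) := by nlinarith
    have k4 := le_of_mul_le_mul_left k3 hd
    nlinarith

theorem exists_balanced : ∃ h u₁ u₂ : ℝ, -10000 / 3 - 1 ≤ h ∧ h ≤ -10000 / 3 + 1 ∧
    u₁ ∈ Icc (0 : ℝ) (1 / 2) ∧ u₂ ∈ Icc (1 / 2 : ℝ) 1 ∧ phi h u₂ = phi h u₁ ∧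
    ∀ v ∈ Icc (0 : ℝ) 1, phi h v ≤ phi h u₁ := by
  have c1 : Continuous fun h => sSup (phi h '' Icc 0 (1 / 2)) :=
    isCompact_Icc.continuous_sSup phi_cont
  have c2 : Continuous fun h => sSup (phi h '' Icc (1 / 2) 1) :=
    isCompact_Icc.continuous_sSup phi_cont
  have ch : ∀ h, Continuous (phi h) := fun h =>
    phi_cont.comp (continuous_const.prodMk continuous_id)
  have e1 : ∀ h, ∃ u ∈ Icc (0 : ℝ) (1 / 2), sSup (phi h '' Icc 0 (1 / 2)) = phi h u ∧
      ∀ v ∈ Icc (0 : ℝ) (1 / 2), phi h v ≤ phi h u := fun h =>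
    isCompact_Icc.exists_sSup_image_eq_and_ge (nonempty_Icc.2 (by norm_num)) (ch h).continuousOn
  have e2 : ∀ h, ∃ u ∈ Icc (1 / 2 : ℝ) 1, sSup (phi h '' Icc (1 / 2) 1) = phi h u ∧
      ∀ v ∈ Icc (1 / 2 : ℝ) 1, phi h v ≤ phi h u := fun h =>
    isCompact_Icc.exists_sSup_image_eq_and_ge (nonempty_Icc.2 (by norm_num)) (ch h).continuousOn
  have i := intermediate_value_Icc (show (-10000 / 3 - 1 : ℝ) ≤ -10000 / 3 + 1 by norm_num)
    (c2.sub c1).continuousOn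
  have hz : (0 : ℝ) ∈ Icc (sSup (phi (-10000 / 3 - 1) '' Icc (1 / 2) 1) -
      sSup (phi (-10000 / 3 - 1) '' Icc 0 (1 / 2)))
      (sSup (phi (-10000 / 3 + 1) '' Icc (1 / 2) 1) - sSup (phi (-10000 / 3 + 1) '' Icc 0 (1 / 2))) := by
    constructor
    · obtain ⟨u, hu, a, b⟩ := e1 (-10000 / 3 - 1)
      obtain ⟨w, hw, c, -⟩ := e2 (-10000 / 3 - 1)
      rw [a, c]
      have b0 := b 0 ⟨le_rfl, by norm_num⟩
      have b1 : phi (-10000 / 3 - 1) 0 = 0 := by simp [phi]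
      have b2 := phi_high (h := -10000 / 3 - 1) le_rfl hw.1 hw.2
      rw [phi_one] at b2
      linarith [hw.2]
    · obtain ⟨u, hu, a, -⟩ := e1 (-10000 / 3 + 1)
      obtain ⟨w, hw, c, b⟩ := e2 (-10000 / 3 + 1)
      rw [a, c]
      have b0 := b 1 ⟨by norm_num, le_rfl⟩
      rw [phi_one] at b0
      have b2 := phi_low (h := -10000 / 3 + 1) le_rfl hu.1 hu.2
      linarith [hu.1]
  obtain ⟨h, hh, hz⟩ := i hz
  obtain ⟨u, hu, a, b⟩ := e1 h
  obtain ⟨w, hw, c, d⟩ := e2 h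
  have hz' : sSup (phi h '' Icc (1 / 2) 1) - sSup (phi h '' Icc 0 (1 / 2)) = 0 := hz
  rw [a, c] at hz'
  refine ⟨h, u, w, hh.1, hh.2, hu, hw, by linarith, fun v hv => ?_⟩
  rcases le_total v (1 / 2) with h2 | h2
  · exact b v ⟨hv.1, h2⟩
  · linarith [d v ⟨h2, hv.2⟩]

theorem exists_two : ∃ h u₁ u₂ : ℝ, -10000 / 3 - 1 ≤ h ∧ h ≤ -10000 / 3 + 1 ∧
    0 < u₁ ∧ u₁ ≤ 1 / 100000 ∧ 1 - u₂ ≤ 1 / 100000 ∧ u₂ < 1 ∧ phi h u₂ = phi h u₁ ∧
    (∀ v ∈ Icc (0 : ℝ) 1, phi h v ≤ phi h u₁) ∧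
    (∀ v ∈ Icc (0 : ℝ) 1, phi h v = phi h u₁ → v = u₁ ∨ v = u₂) ∧
    Real.log u₂ - Real.log (1 - u₂) = h + 10000 * u₂ ^ 2 := by
  obtain ⟨h, u₁, u₂, h1, h2, hu₁, hu₂, he, hm⟩ := exists_balanced
  have key : ∀ v ∈ Icc (0 : ℝ) 1, phi h v = phi h u₁ → 0 < v ∧ v < 1 ∧
      (v ≤ 1 / 2 → v ≤ 1 / 100000) ∧ (1 / 2 ≤ v → 1 - v ≤ 1 / 100000) ∧
      Real.log v - Real.log (1 - v) = h + 10000 * v ^ 2 := by
    intro v hv hv2
    obtain ⟨a, ha, ha2⟩ := phi_pos (h := h) (by linarith)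
    obtain ⟨b, hb, hb2⟩ := phi_gt_one (h := h) (by linarith)
    have a1 := hm a ha
    have b1 := hm b hb
    have v0 : 0 < v := lt_of_le_of_ne hv.1 (by rintro rfl; linarith)
    have v1 : v < 1 := lt_of_le_of_ne hv.2 (by rintro rfl; linarith)
    have z : phi h 0 = 0 := by simp [phi]
    refine ⟨v0, v1, fun h3 => ?_, fun h3 => ?_, stationary v0 v1 fun w hw => hv2 ▸ hm w hw⟩
    · linarith [phi_low h2 hv.1 h3]
    · linarith [phi_high h1 h3 hv.2]
  obtain ⟨a1, a2, a3, -, a5⟩ := key u₁ ⟨hu₁.1, by linarith [hu₁.2]⟩ rfl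
  obtain ⟨b1, b2, -, b4, b5⟩ := key u₂ ⟨by linarith [hu₂.1], hu₂.2⟩ he
  refine ⟨h, u₁, u₂, h1, h2, a1, a3 hu₁.2, b4 hu₂.1, b2, he, hm, fun v hv hv2 => ?_, b5⟩
  obtain ⟨c1, c2, c3, c4, c5⟩ := key v hv hv2
  rcases le_total v (1 / 2) with h3 | h3
  · left
    rcases lt_trichotomy v u₁ with h4 | h4 | h4
    · linarith [(stat_lt c1 h4 a2 c5 a5).1, a3 hu₁.2]
    · exact h4
    · linarith [(stat_lt a1 h4 c2 a5 c5).1, c3 h3]
  · right
    rcases lt_trichotomy v u₂ with h4 | h4 | h4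
    · linarith [(stat_lt c1 h4 b2 c5 b5).2, c4 h3]
    · exact h4
    · linarith [(stat_lt b1 h4 c2 b5 c5).2, b4 hu₂.1]

end Pool.Agent.H793Z.Erg
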