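import Mathlib
import Pool.Agent.H793Z.Erg.Alg
import Pool.Agent.H793Z.Erg.Max

set_option autoImplicit false

namespace Pool.Agent.H793Z.Erg

open Finset Classical

theorem sum_le_of_inj {A B : Type} [Fintype A] [Fintype B] (φ : A → B) (hφ : Function.Injective φ)
    (F : B → ℝ) (hF : ∀ b, 0 ≤ F b) : ∑ a, F (φ a) ≤ ∑ b, F b := by
  rw [← Finset.sum_image (s := univ) (g := φ) (f := F) (fun a _ b _ h => hφ h)]
  exact Finset.sum_le_sum_of_subset_of_nonneg (Finset.subset_univ _) fun b _ _ => hF b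

variable {V : Type} [Fintype V] [LinearOrder V]

/-- the Hamiltonian in matrix form -/
noncomputable def Hm (h : ℝ) (A : V → V → ℝ) : ℝ :=
  h / 2 * (∑ i, ∑ j, A i j) + 10000 / (6 * (Fintype.card V : ℝ)) * S3 A A A

theorem W_eq {p : ℝ} (h0 : 0 < p) (h1 : p < 1) (y : Sym2 V → Bool) :
    W p y = Real.exp (∑ e, if y e then Real.log p else Real.log (1 - p)) := by
  unfold W wt
  rw [Real.exp_sum]
  refine Finset.prod_congr rfl fun e _ => ?_
  split_ifs
  · rw [Real.exp_log h0]
  · rw [Real.exp_log (by linarith)]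

theorem well_point {h q : ℝ} (hq0 : 0 < q) (hq1 : q < 1) (hn : 0 < Fintype.card V)
    (hs : Real.log q - Real.log (1 - q) = h + 10000 * q ^ 2)
    (y : Sym2 V → Bool) (hy : ∀ e, e.IsDiag → y e = false) :
    Real.exp (Hm h (X y)) ≤ W (1 - q) y *
      (Real.exp ((Fintype.card V : ℝ) * ((Fintype.card V : ℝ) - 1) / 2 * phi h q -
        10000 * q ^ 3 * ((Fintype.card V : ℝ) - 1) / 3 - Fintype.card V * Real.log q +
        10000 / (Fintype.card V : ℝ) * mu y) *
      (Real.exp (6000 / (Fintype.card V : ℝ) * ∑ v, del (1 - q) y v ^ 2) +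
        Real.exp (-(10000 / (Fintype.card V : ℝ)) * Tr (1 - q) univ y))) := by
  set n : ℝ := (Fintype.card V : ℝ) with hndef
  have hn0 : 0 < n := by rw [hndef]; exact_mod_cast hn
  have hn1 : 1 ≤ n := by rw [hndef]; exact_mod_cast hn
  have e1 := S3_expand q (Y (1 - q) y) (fun i j => Y_symm y i j) (fun i => Y_self y i)
  have e2 := X_eq (1 - q) y
  rw [sub_sub_cancel] at e2
  rw [← e2, sum_Y, ← hndef] at e1
  have e3 : S3 (Y (1 - q) y) (Y (1 - q) y) (Y (1 - q) y) = Tr (1 - q) univ y := rfl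
  have e4 : ∑ j, (∑ i, Y (1 - q) y j i) ^ 2 = ∑ v, del (1 - q) y v ^ 2 := rfl
  rw [e3, e4] at e1
  have hF : 0 ≤ ∑ i, ∑ j, Y (1 - q) y i j ^ 2 :=
    Finset.sum_nonneg fun _ _ => Finset.sum_nonneg fun _ _ => sq_nonneg _
  have hD : 0 ≤ ∑ v, del (1 - q) y v ^ 2 := Finset.sum_nonneg fun _ _ => sq_nonneg _
  have hm := mu_nonneg y
  rw [W_eq (by linarith) (by linarith), sum_nodiag y hy, sub_sub_cancel, ← hndef]
  unfold Hm
  rw [e1, sum_X, ← hndef]
  set D := ∑ v, del (1 - q) y v ^ 2
  set F := ∑ i, ∑ j, Y (1 - q) y i j ^ 2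
  set T := Tr (1 - q) univ y
  have conv : Real.exp (5000 / n * D + -(10000 / (6 * n)) * T) ≤
      Real.exp (6000 / n * D) + Real.exp (-(10000 / n) * T) := by
    have := convexOn_exp.2 (Set.mem_univ (6000 / n * D)) (Set.mem_univ (-(10000 / n) * T))
      (show (0 : ℝ) ≤ 5 / 6 by norm_num) (show (0 : ℝ) ≤ 1 / 6 by norm_num) (by norm_num)
    simp only [smul_eq_mul] at this
    have e : 5 / 6 * (6000 / n * D) + 1 / 6 * (-(10000 / n) * T) =
        5000 / n * D + -(10000 / (6 * n)) * T := by field_simp; ring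
    rw [e] at this
    linarith [Real.exp_pos (6000 / n * D), Real.exp_pos (-(10000 / n) * T)]
  refine le_trans ?_ (mul_le_mul_of_nonneg_left (mul_le_mul_of_nonneg_left conv
    (Real.exp_pos _).le) (Real.exp_pos _).le)
  rw [← Real.exp_add, ← Real.exp_add, Real.exp_le_exp]
  have hl : Real.log (1 - q) = Real.log q - h - 10000 * q ^ 2 := by linarith
  unfold phi
  rw [hl, ← sub_nonneg]
  have hi : 0 < 1 / n := by positivity
  have t1 : 0 ≤ 10000 * (1 / n) * mu y * (1 - q ^ 2) :=
    mul_nonneg (by positivity) (by nlinarith)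
  have t2 : 0 ≤ 10000 * q ^ 2 * (1 - q) * (n - 1) :=
    mul_nonneg (mul_nonneg (by positivity) (by linarith)) (by linarith)
  have t3 : 0 ≤ 5000 * (1 / n) * D * (1 - q) := mul_nonneg (by positivity) (by linarith)
  have t4 : 0 ≤ 5000 * (1 / n) * q * F := by positivity
  refine le_of_le_of_eq (add_nonneg (add_nonneg t1 t2) (add_nonneg t3 t4)) ?_
  field_simp
  ring

theorem well_sum {h q : ℝ} (hq0 : 0 < q) (hq1 : q < 1) (hp : 1 - q ≤ Real.exp (-6500))
    (hn : 0 < Fintype.card V) (hs : Real.log q - Real.log (1 - q) = h + 10000 * q ^ 2) :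
    ∑ G : SimpleGraph V, (if mu (yG G) ≤ (Fintype.card V : ℝ) ^ 2 / 10 ^ 12 then
      Real.exp (Hm h (AX G)) else 0) ≤
      Real.exp ((Fintype.card V : ℝ) * ((Fintype.card V : ℝ) - 1) / 2 * phi h q -
        10000 * q ^ 3 * ((Fintype.card V : ℝ) - 1) / 3 - Fintype.card V * Real.log q +
        Fintype.card V) * (2 * 40 ^ Fintype.card V + Real.exp (Fintype.card V / 4)) := by
  have hp0 : 0 ≤ 1 - q := by linarith
  have hp1 : 1 - q ≤ 1 := by linarith
  have w := wedge_bound hp0 hp hn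
  have hp2 : 1 - q ≤ 1 / 10 ^ 12 := by
    have := p_small2 hp (x := 0) (by norm_num)
    rw [Real.exp_zero] at this
    rw [le_div_iff₀ (by norm_num)]
    linarith
  set n : ℝ := (Fintype.card V : ℝ) with hndef
  have hn0 : 0 < n := by rw [hndef]; exact_mod_cast hn
  have hR : 36 * (10000 / n) ^ 2 * (n ^ 2 / 10 ^ 12 + (1 - q) ^ 2 * n ^ 2) ≤ 1 / 4 := by
    have e : 36 * (10000 / n) ^ 2 * (n ^ 2 / 10 ^ 12 + (1 - q) ^ 2 * n ^ 2) =
        36 * 10 ^ 8 * (1 / 10 ^ 12 + (1 - q) ^ 2) := by field_simp; ring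
    rw [e]
    have : (1 - q) ^ 2 ≤ 1 / 10 ^ 12 := by nlinarith
    linarith
  have c := cubic_bound hp0 hp1 hR (univ : Finset V)
  rw [Finset.card_univ, ← hndef] at c
  set C := Real.exp (n * (n - 1) / 2 * phi h q - 10000 * q ^ 3 * (n - 1) / 3 - n * Real.log q + n)
    with hC
  let Φ : (Sym2 V → Bool) → ℝ := fun y => C *
    ((if mu y ≤ n ^ 2 / 10 ^ 12 then Real.exp (6000 / n * ∑ v, del (1 - q) y v ^ 2) else 0) +
      (if Fr (1 - q) univ y ≤ n ^ 2 / 10 ^ 12 + (1 - q) ^ 2 * n ^ 2 then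
        Real.exp (-(10000 / n) * Tr (1 - q) univ y) else 0))
  have hΦ : ∀ y, 0 ≤ Φ y := fun y => by
    simp only [Φ]
    refine mul_nonneg (Real.exp_pos _).le (add_nonneg ?_ ?_) <;> split_ifs <;> positivity
  calc _ ≤ ∑ G : SimpleGraph V, W (1 - q) (yG G) * Φ (yG G) := by
        refine Finset.sum_le_sum fun G _ => ?_
        split_ifs with hG
        · have a := well_point hq0 hq1 hn hs (yG G) (yG_diag G)
          rw [X_gr, gr_yG, ← hndef] at a
          refine a.trans (mul_le_mul_of_nonneg_left ?_ (W_nonneg hp0 hp1 _))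
          have b := Fr_le hp0 (yG G)
          rw [← hndef] at b
          simp only [Φ]
          rw [if_pos hG, if_pos (by linarith)]
          refine mul_le_mul_of_nonneg_right (Real.exp_le_exp.2 ?_) (by positivity)
          have : 10000 / n * mu (yG G) ≤ n := by
            rw [div_mul_eq_mul_div, div_le_iff₀ hn0]
            nlinarith
          linarith
        · exact mul_nonneg (W_nonneg hp0 hp1 _) (hΦ _)
    _ ≤ Ex (1 - q) Φ := sum_le_of_inj yG yG_inj (fun y => W (1 - q) y * Φ y)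
          fun y => mul_nonneg (W_nonneg hp0 hp1 _) (hΦ _)
    _ ≤ _ := by
        simp only [Φ]
        rw [Ex_mul_const, Ex_add]
        exact mul_le_mul_of_nonneg_left (add_le_add w c) (Real.exp_pos _).le

theorem mid_point {h : ℝ} (hh : -10000 / 3 - 1 ≤ h) (hn : 0 < Fintype.card V) (G : SimpleGraph V)
    (hT : 6 / 10 * (Fintype.card V : ℝ) ^ 3 ≤ S3 (AX G) (AX G) (AX G)) :
    Hm h (AX G) ≤ (10000 / 3 + h) * (Fintype.card V : ℝ) ^ 2 / 2 - 400 * mu (yG G) := by
  have a := S3_sq_le (AX G) (fun i j => by unfold AX; simp only [G.adj_comm])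
    (fun i j => by unfold AX; split_ifs <;> simp)
  have b := sum_X (yG G)
  rw [X_gr, gr_yG] at b
  have hm := mu_nonneg (yG G)
  unfold Hm
  set n : ℝ := (Fintype.card V : ℝ) with hndef
  have hn0 : 0 < n := by rw [hndef]; exact_mod_cast hn
  set D := ∑ i, ∑ j, AX G i j
  set T := S3 (AX G) (AX G) (AX G)
  have hD1 : D ≤ n ^ 2 - mu (yG G) := by nlinarith
  have n2 : 0 < n ^ 2 := by positivity
  have n3 : 0 < n ^ 3 := by positivity
  have hD2 : 7 / 10 * n ^ 2 ≤ D := by
    by_contra hc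
    push Not at hc
    have hD0 : 0 ≤ D := by
      exact Finset.sum_nonneg fun i _ => Finset.sum_nonneg fun j _ => by
        unfold AX; split_ifs <;> norm_num
    have := pow_le_pow_left₀ hD0 hc.le 3
    have h2 := pow_le_pow_left₀ (by positivity) hT 2
    have : 0 < n ^ 6 := by positivity
    nlinarith
  have hT2 : T ≤ 13 / 10 * n * D - 3 / 10 * n ^ 3 := by
    have p1 : 0 ≤ 13 / 10 * n * D - 3 / 10 * n ^ 3 := by nlinarith
    refine abs_le_of_sq_le_sq' ?_ p1 |>.2
    have p2 : 0 ≤ (n ^ 2 - D) * (D ^ 2 - 69 / 100 * n ^ 2 * D + 9 / 100 * n ^ 4) := by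
      refine mul_nonneg (by linarith) ?_
      have : 0 ≤ D * (D - 69 / 100 * n ^ 2) := mul_nonneg (by linarith) (by linarith)
      have : 0 < n ^ 4 := by positivity
      nlinarith
    nlinarith
  have hT3 : 10000 / (6 * n) * T ≤ 10000 / 6 * (13 / 10 * D - 3 / 10 * n ^ 2) := by
    have := mul_le_mul_of_nonneg_left hT2 (show 0 ≤ 10000 / (6 * n) by positivity)
    refine this.trans (le_of_eq ?_)
    field_simp
  have k : 0 ≤ (h / 2 + 13000 / 6) * (n ^ 2 - mu (yG G) - D) := mul_nonneg (by linarith) (by linarith)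
  have k2 : 0 ≤ (h / 2 + 13000 / 6 - 400) * mu (yG G) := mul_nonneg (by linarith) hm
  nlinarith

theorem mid_sum {h : ℝ} (hh : -10000 / 3 - 1 ≤ h) (hn : 0 < Fintype.card V) :
    ∑ G : SimpleGraph V, (if (Fintype.card V : ℝ) ^ 2 / 10 ^ 12 < mu (yG G) ∧
      6 / 10 * (Fintype.card V : ℝ) ^ 3 ≤ S3 (AX G) (AX G) (AX G) then
      Real.exp (Hm h (AX G)) else 0) ≤
      Real.exp ((10000 / 3 + h) * (Fintype.card V : ℝ) ^ 2 / 2 -
        (Fintype.card V : ℝ) ^ 2 / 10 ^ 10) := by
  have hc := card_sym2_le (V := V)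
  set n : ℝ := (Fintype.card V : ℝ) with hndef
  set C := Real.exp ((10000 / 3 + h) * n ^ 2 / 2 - 2 * n ^ 2 / 10 ^ 10) with hC
  let Φ : (Sym2 V → Bool) → ℝ := fun y => C * ∏ e, Real.exp (if y e then -400 else 0)
  have hΦ : ∀ y, 0 ≤ Φ y := fun y => by simp only [Φ]; positivity
  have hsm : Real.exp (-400) ≤ 1 / 10 ^ 10 := by
    have a1 : (10 : ℝ) ≤ Real.exp 40 := by have := Real.add_one_le_exp 40; linarith
    have a2 : Real.exp 400 = Real.exp 40 ^ 10 := by rw [← Real.exp_nat_mul]; norm_num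
    rw [Real.exp_neg, one_div, a2]
    exact inv_anti₀ (by norm_num) (pow_le_pow_left₀ (by norm_num) a1 10)
  calc _ ≤ ∑ G : SimpleGraph V, Φ (yG G) := by
        refine Finset.sum_le_sum fun G _ => ?_
        split_ifs with hG
        · have a := mid_point hh hn G hG.2
          simp only [Φ]
          rw [← Real.exp_sum, sum_nodiag _ (yG_diag G), hC, ← Real.exp_add, Real.exp_le_exp]
          have := hG.1
          rw [← hndef] at a
          linarith
        · exact hΦ _
    _ ≤ ∑ y, Φ y := sum_le_of_inj yG yG_inj Φ hΦ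
    _ = C * (Real.exp (-400) + 1) ^ Fintype.card (Sym2 V) := by
        simp only [Φ]
        rw [← Finset.mul_sum]
        congr 1
        have := Finset.prod_univ_sum (fun _ : Sym2 V => (univ : Finset Bool))
          (fun _ b => Real.exp (if b then -400 else 0))
        rw [Fintype.piFinset_univ] at this
        rw [← this]
        simp
    _ ≤ C * Real.exp (Real.exp (-400)) ^ Fintype.card (Sym2 V) := by
        gcongr
        exact Real.add_one_le_exp _
    _ ≤ _ := by
        rw [← Real.exp_nat_mul, hC, ← Real.exp_add, Real.exp_le_exp]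
        have : (Fintype.card (Sym2 V) : ℝ) * Real.exp (-400) ≤ n ^ 2 * (1 / 10 ^ 10) :=
          mul_le_mul hc hsm (Real.exp_pos _).le (sq_nonneg _)
        linarith

theorem Ex_X {u : ℝ} (i j : V) : Ex (1 - u) (fun y : Sym2 V → Bool => X y i j) = u * K i j := by
  unfold X K
  split_ifs
  · simp [Ex_const]
  · rw [Ex_coord s(i, j) (fun b => 1 - ind b)]
    simp [ind]

theorem Ex_XXX {u : ℝ} (i j k : V) :
    Ex (1 - u) (fun y : Sym2 V → Bool => X y i j * X y j k * X y k i) =
      u ^ 3 * (K i j * K j k * K k i) := by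
  unfold X K
  by_cases h1 : i = j
  · simp [h1, Ex_const]
  by_cases h2 : j = k
  · simp [h2, Ex_const]
  by_cases h3 : k = i
  · simp [h3, Ex_const]
  simp only [h1, h2, h3, if_false]
  have n1 : s(i, j) ∉ ({s(j, k), s(k, i)} : Finset (Sym2 V)) := by
    simp only [Finset.mem_insert, Finset.mem_singleton, Sym2.eq_iff]
    rintro ((⟨a, b⟩ | ⟨a, b⟩) | (⟨a, b⟩ | ⟨a, b⟩))
    · exact h1 a
    · exact h3 a.symm
    · exact h3 a.symm
    · exact h2 b
  have n2 : s(j, k) ≠ s(k, i) := by
    simp only [ne_eq, Sym2.eq_iff]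
    rintro (⟨a, b⟩ | ⟨a, b⟩)
    · exact h2 a
    · exact h1 a.symm
  have := Ex_prod (p := 1 - u) ({s(i, j), s(j, k), s(k, i)} : Finset (Sym2 V))
    (fun _ b => 1 - ind b)
  simp only [Finset.prod_insert n1, Finset.prod_pair n2] at this
  simp only [mul_assoc]
  rw [this]
  simp [ind]
  ring

theorem lower {h u : ℝ} (h0 : 0 < u) (h1 : u < 1) (hn : 0 < Fintype.card V) :
    Real.exp ((Fintype.card V : ℝ) * ((Fintype.card V : ℝ) - 1) / 2 * phi h u -
      10000 * u ^ 3 * ((Fintype.card V : ℝ) - 1) / 3) ≤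
      2 ^ Fintype.card V * ∑ G : SimpleGraph V, Real.exp (Hm h (AX G)) := by
  have hc := le_card_sym2 (V := V)
  have hp0 : 0 < 1 - u := by linarith
  have hp1 : 1 - u < 1 := by linarith
  let L : (Sym2 V → Bool) → ℝ := fun y => Hm h (X y) +
    ∑ e, -(if y e then Real.log (1 - u) else Real.log (1 - (1 - u)))
  have e1 : Ex (1 - u) (fun y => Real.exp (L y)) = ∑ y : Sym2 V → Bool, Real.exp (Hm h (X y)) := by
    unfold Ex
    refine Finset.sum_congr rfl fun y _ => ?_
    rw [W_eq hp0 hp1, ← Real.exp_add]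
    simp only [L, Finset.sum_neg_distrib]
    congr 1
    ring
  have e2 : Ex (1 - u) L = h / 2 * (u * ((Fintype.card V : ℝ) * ((Fintype.card V : ℝ) - 1))) +
      10000 / (6 * (Fintype.card V : ℝ)) * (u ^ 3 * (((Fintype.card V : ℝ) - 2) *
        ((Fintype.card V : ℝ) * ((Fintype.card V : ℝ) - 1)))) +
      Fintype.card (Sym2 V) * -(u * Real.log u + (1 - u) * Real.log (1 - u)) := by
    simp only [L, Hm, S3]
    rw [Ex_add, Ex_add, Ex_mul_const, Ex_mul_const]
    simp only [Ex_sum, Ex_X, Ex_XXX, ← Finset.mul_sum]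
    have a := S3_KK (K (V := V)) (fun i => by simp [K])
    unfold S3 at a
    have b : ∀ e : Sym2 V, Ex (1 - u) (fun y : Sym2 V → Bool =>
        -(if y e then Real.log (1 - u) else Real.log (1 - (1 - u)))) =
        -(u * Real.log u + (1 - u) * Real.log (1 - u)) := by
      intro e
      rw [Ex_coord e (fun b => -(if b then Real.log (1 - u) else Real.log (1 - (1 - u))))]
      simp
    rw [a]
    simp only [b, sum_K, Finset.sum_const, Finset.card_univ, nsmul_eq_mul]
  have j : Real.exp (Ex (1 - u) L) ≤ Ex (1 - u) (fun y => Real.exp (L y)) := by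
    set m := Ex (1 - u) L with hm
    have := Ex_mono hp0.le hp1.le (F := fun y => Real.exp m * (L y + (1 - m)))
      (G := fun y => Real.exp (L y)) fun y => by
        have := Real.add_one_le_exp (L y - m)
        have e : Real.exp (L y) = Real.exp m * Real.exp (L y - m) := by
          rw [← Real.exp_add]; congr 1; ring
        rw [e]
        exact mul_le_mul_of_nonneg_left (by linarith) (Real.exp_pos _).le
    rw [Ex_mul_const, Ex_add, Ex_const, ← hm] at this
    simpa using this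
  have i : ∑ y : Sym2 V → Bool, Real.exp (Hm h (X y)) ≤
      ∑ x : SimpleGraph V × (V → Bool), Real.exp (Hm h (AX x.1)) := by
    simp only [X_gr]
    refine sum_le_of_inj (fun y : Sym2 V → Bool => (gr y, fun v => y s(v, v))) ?_
      (fun x => Real.exp (Hm h (AX x.1))) fun _ => (Real.exp_pos _).le
    intro y z hyz
    have a1 : gr y = gr z := congrArg Prod.fst hyz
    have a2 : (fun v => y s(v, v)) = fun v => z s(v, v) := congrArg Prod.snd hyz
    ext e
    induction e using Sym2.ind with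
    | h a b =>
      by_cases hab : a = b
      · subst hab; exact congrFun a2 a
      · have : (gr y).Adj a b ↔ (gr z).Adj a b := by rw [a1]
        simp only [gr, ne_eq, hab, not_false_eq_true, true_and] at this
        cases hy : y s(a, b) <;> cases hz : z s(a, b) <;> simp_all
  rw [Fintype.sum_prod_type] at i
  simp only [Finset.sum_const, Finset.card_univ, Fintype.card_fun, Fintype.card_bool, nsmul_eq_mul,
    ← Finset.mul_sum] at i
  push_cast at i
  refine le_trans ?_ (j.trans (e1.le.trans i))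
  rw [Real.exp_le_exp, e2]
  set n : ℝ := (Fintype.card V : ℝ) with hndef
  have hn0 : 0 < n := by rw [hndef]; exact_mod_cast hn
  have en : 0 ≤ -(u * Real.log u + (1 - u) * Real.log (1 - u)) := by
    linarith [Real.mul_log_nonpos h0.le h1.le, Real.mul_log_nonpos hp0.le hp1.le]
  have := mul_le_mul_of_nonneg_right hc en
  have e : 10000 / (6 * n) * (u ^ 3 * ((n - 2) * (n * (n - 1)))) =
      10000 / 6 * (u ^ 3 * ((n - 2) * (n - 1))) := by field_simp
  rw [e]
  unfold phi
  nlinarith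

end Pool.Agent.H793Z.Erg
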