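import Mathlib
import Pool.Agent.H793Z.Erg.Bounds

set_option autoImplicit false

namespace Pool.Agent.H793Z.Erg

open Finset Classical

noncomputable def ff (x : ℝ) : ℝ := max 0 (min 1 (10 * x - 6))

theorem ff_cont : Continuous ff := by unfold ff; fun_prop

theorem ff_nonneg (x : ℝ) : 0 ≤ ff x := le_max_left _ _

theorem ff_le (x : ℝ) : ff x ≤ 1 := max_le zero_le_one (min_le_left _ _)

theorem ff_abs (x : ℝ) : |ff x| ≤ 1 := by rw [abs_of_nonneg (ff_nonneg x)]; exact ff_le x

theorem ff_low {x : ℝ} (h : x ≤ 6 / 10) : ff x = 0 :=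
  max_eq_left ((min_le_right _ _).trans (by linarith))

theorem ff_high {x : ℝ} (h : 7 / 10 ≤ x) : ff x = 1 := by
  unfold ff
  rw [min_eq_left (by linarith), max_eq_right zero_le_one]

variable {V : Type} [Fintype V] [LinearOrder V]

theorem Hm_eq (h : ℝ) (G : SimpleGraph V) : Hm h (AX G) =
    h * (G.edgeFinset.card : ℝ) + 10000 / (Fintype.card V : ℝ) * ((G.cliqueFinset 3).card : ℝ) := by
  unfold Hm
  rw [sum_AX, S3_AX]
  ring

theorem ratio_le {h u q : ℝ} (h1 : -10000 / 3 - 1 ≤ h) (a0 : 0 < u) (a1 : u ≤ 1 / 100000)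
    (b0 : 1 - q ≤ 1 / 100000) (b1 : q < 1) (he : phi h q = phi h u)
    (hm : ∀ v ∈ Set.Icc (0 : ℝ) 1, phi h v ≤ phi h u)
    (hs : Real.log q - Real.log (1 - q) = h + 10000 * q ^ 2) (n1 : 2 ≤ Fintype.card V)
    (n2 : 10 ^ 10 * (3 + phi h u / 2) ≤ Fintype.card V) :
    (∑ G : SimpleGraph V, Real.exp (Hm h (AX G)) *
      ff (S3 (AX G) (AX G) (AX G) / (Fintype.card V : ℝ) ^ 3)) /
      (∑ G : SimpleGraph V, Real.exp (Hm h (AX G))) ≤ 2 * Real.exp (-(Fintype.card V : ℝ)) := by
  have hq0 : 0 < q := by linarith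
  have hlq : -1 ≤ Real.log q := by
    have := Real.one_sub_inv_le_log_of_pos hq0
    have h2 : q⁻¹ ≤ 2 := by rw [inv_le_comm₀ hq0 (by norm_num)]; linarith
    linarith
  have hp : 1 - q ≤ Real.exp (-6500) := by
    rw [← Real.log_le_iff_le_exp (by linarith)]
    have := Real.log_nonpos hq0.le b1.le
    nlinarith
  have hn : 0 < Fintype.card V := by omega
  have A := well_sum (V := V) hq0 b1 hp hn hs
  have B := mid_sum (V := V) h1 hn
  have C := lower (V := V) (h := h) a0 (by linarith) hn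
  have c2 : (2 : ℝ) ^ Fintype.card V ≤ Real.exp (Fintype.card V) := by
    rw [← mul_one (Fintype.card V : ℝ), Real.exp_nat_mul]
    exact pow_le_pow_left₀ (by norm_num) (by linarith [Real.add_one_le_exp 1]) _
  have c40 : (40 : ℝ) ^ Fintype.card V ≤ Real.exp (Fintype.card V * 39) := by
    rw [Real.exp_nat_mul]
    exact pow_le_pow_left₀ (by norm_num) (by linarith [Real.add_one_le_exp 39]) _
  have hn2 : (2 : ℝ) ≤ Fintype.card V := by exact_mod_cast n1
  set n : ℝ := (Fintype.card V : ℝ) with hndef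
  have hn0 : 0 < n := by linarith
  have hZ : 0 < ∑ G : SimpleGraph V, Real.exp (Hm h (AX G)) :=
    Finset.sum_pos (fun _ _ => Real.exp_pos _) Finset.univ_nonempty
  set Z := ∑ G : SimpleGraph V, Real.exp (Hm h (AX G))
  have c3 : 2 * (40 : ℝ) ^ Fintype.card V + Real.exp (n / 4) ≤ Real.exp (41 * n) := by
    have e : Real.exp (41 * n) = Real.exp (2 * n) * Real.exp (n * 39) := by
      rw [← Real.exp_add]; congr 1; ring
    have a : Real.exp (n / 4) ≤ Real.exp (n * 39) := Real.exp_le_exp.2 (by linarith)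
    have b := Real.add_one_le_exp (2 * n)
    rw [e]
    nlinarith [Real.exp_pos (n * 39)]
  have hu3 : 10000 * u ^ 3 * (n - 1) / 3 ≤ n := by
    have := pow_le_pow_left₀ a0.le a1 3
    have h2 : 10000 * u ^ 3 ≤ 1 := by linarith
    have := mul_le_mul_of_nonneg_right h2 (show 0 ≤ n - 1 by linarith)
    linarith
  have C' : Real.exp (n * (n - 1) / 2 * phi h u - 2 * n) ≤ Z := by
    have h2 := C.trans (mul_le_mul_of_nonneg_right c2 hZ.le)
    have h3 : Real.exp n * Real.exp (n * (n - 1) / 2 * phi h u - 2 * n) ≤ Real.exp n * Z := by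
      refine le_trans ?_ h2
      rw [← Real.exp_add, Real.exp_le_exp]
      linarith
    exact le_of_mul_le_mul_left h3 (Real.exp_pos _)
  have D : Real.exp (n * (n - 1) / 2 * phi h u - 3 * n) ≤ Real.exp (-n) * Z := by
    refine le_trans (le_of_eq ?_) (mul_le_mul_of_nonneg_left C' (Real.exp_pos _).le)
    rw [← Real.exp_add]; congr 1; ring
  have A' := A.trans (mul_le_mul_of_nonneg_left c3 (Real.exp_pos _).le)
  rw [← Real.exp_add, he] at A'
  have A2 := A'.trans ((Real.exp_le_exp.2 (by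
    have q3 : (9 / 10 : ℝ) ^ 3 ≤ q ^ 3 := pow_le_pow_left₀ (by norm_num) (by linarith) 3
    have := mul_le_mul q3 (show n / 2 ≤ n - 1 by linarith) (by linarith) (by positivity)
    have := mul_le_mul_of_nonneg_left hlq hn0.le
    linarith)).trans D)
  have B2 := B.trans ((Real.exp_le_exp.2 (by
    have p1 := hm 1 ⟨zero_le_one, le_rfl⟩
    rw [phi_one] at p1
    have := mul_le_mul_of_nonneg_right p1 (sq_nonneg n)
    have := mul_le_mul_of_nonneg_left n2 hn0.le
    linarith)).trans D)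
  rw [div_le_iff₀ hZ]
  refine le_trans ?_ ((add_le_add A2 B2).trans (le_of_eq (by ring)))
  rw [← Finset.sum_add_distrib]
  refine Finset.sum_le_sum fun G _ => ?_
  have e0 := Real.exp_pos (Hm h (AX G))
  have e1 := mul_le_mul_of_nonneg_left (ff_le (S3 (AX G) (AX G) (AX G) / n ^ 3)) e0.le
  by_cases g1 : mu (yG G) ≤ n ^ 2 / 10 ^ 12
  · rw [if_pos g1, if_neg (fun c => absurd c.1 (not_lt.2 g1))]
    linarith
  · by_cases g2 : 6 / 10 * n ^ 3 ≤ S3 (AX G) (AX G) (AX G)
    · rw [if_neg g1, if_pos ⟨not_le.1 g1, g2⟩]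
      linarith
    · rw [if_neg g1, if_neg (fun c => g2 c.2), ff_low]
      · simp
      · rw [div_le_iff₀ (by positivity)]
        exact (not_le.1 g2).le

end Pool.Agent.H793Z.Erg
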